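import Pool.Agent.U746.AS.Equi
import Pool.Agent.W468.CFMost

/-! The constant of Conjecture F. -/

set_option autoImplicit false

namespace Pool.Agent.U746.AS
open Finset Polynomial Filter Topology
open Pool.Agent.H373R2.T7
open Pool.Agent.W468.ConjF (SJ PJ CF js_abs sum_inv_mul factor_pos PJ_pos CF_split CF_pos CF_tendsto CF_limit_le good_most)
open Pool.Agent.H373R2.BH (eulerProduct omegaP)

lemma exp_ge (t : ℝ) (h1 : t ≤ 1 / 2) : Real.exp (-t - 2 * t ^ 2) ≤ 1 - t := by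
  have h2 : 0 < 1 - t := by linarith
  have h3 := Real.add_one_le_exp (t + 2 * t ^ 2)
  have h4 : Real.exp (-t - 2 * t ^ 2) = (Real.exp (t + 2 * t ^ 2))⁻¹ := by
    rw [← Real.exp_neg]; congr 1; ring
  rw [h4, inv_le_comm₀ (Real.exp_pos _) h2]
  refine le_trans ?_ h3
  rw [inv_le_iff_one_le_mul₀ h2]
  nlinarith [sq_nonneg t]

lemma PJ_ge (D : ℤ) (z N : ℕ) (hz : 2 ≤ z) (hN : z ≤ N) : Real.exp (-(|SJ D z N| + 4 / z)) ≤ PJ D z N := by
  have h1 : ∏ p ∈ (Ioc z N).filter Nat.Prime, Real.exp (-((jacobiSym D p : ℝ) / p) - 4 * (1 / ((p : ℝ) * (p - 1)))) ≤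
      PJ D z N := by
    unfold PJ
    apply Finset.prod_le_prod
    · intro p hp
      exact (Real.exp_pos _).le
    · intro p hp
      rw [mem_filter, mem_Ioc] at hp
      have hp3 : (3 : ℝ) ≤ p := by exact_mod_cast (by omega : 3 ≤ p)
      have hj := js_abs D p
      have ht : (jacobiSym D p : ℝ) / (p - 1) ≤ 1 / 2 := by
        rw [div_le_div_iff₀ (by linarith) (by norm_num)]
        have := (abs_le.1 hj).2
        linarith
      refine le_trans (Real.exp_le_exp.2 ?_) (exp_ge _ ht)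
      have h3 : (jacobiSym D p : ℝ) / (p - 1) = (jacobiSym D p : ℝ) / p + (jacobiSym D p : ℝ) / (p * (p - 1)) := by
        have : (p : ℝ) - 1 ≠ 0 := by linarith
        field_simp
        ring
      have h4 : (jacobiSym D p : ℝ) / (p * (p - 1)) ≤ 1 / ((p : ℝ) * (p - 1)) := by
        apply div_le_div_of_nonneg_right (abs_le.1 hj).2
        apply mul_nonneg <;> linarith
      have h5 : 2 * ((jacobiSym D p : ℝ) / (p - 1)) ^ 2 ≤ 3 * (1 / ((p : ℝ) * (p - 1))) := by
        have hj2 : (jacobiSym D p : ℝ) ^ 2 ≤ 1 := by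
          rw [← sq_abs]; exact pow_le_one₀ (abs_nonneg _) hj
        have h6 : 2 * ((jacobiSym D p : ℝ) / (p - 1)) ^ 2 ≤ 2 * (1 / ((p : ℝ) - 1) ^ 2) := by
          rw [div_pow]
          apply mul_le_mul_of_nonneg_left _ (by norm_num)
          apply div_le_div_of_nonneg_right hj2 (by positivity)
        refine h6.trans ?_
        have hp1 : (0 : ℝ) < p - 1 := by linarith
        have hp0 : (0 : ℝ) < p := by linarith
        rw [mul_one_div, mul_one_div, div_le_div_iff₀ (by positivity) (by positivity)]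
        nlinarith
      rw [h3] at *
      linarith
  refine le_trans ?_ h1
  rw [← Real.exp_sum]
  apply Real.exp_le_exp.2
  rw [sum_sub_distrib, sum_neg_distrib, ← mul_sum]
  have h5 : ∑ p ∈ (Ioc z N).filter Nat.Prime, 1 / ((p : ℝ) * (p - 1)) ≤ 1 / z := by
    calc ∑ p ∈ (Ioc z N).filter Nat.Prime, 1 / ((p : ℝ) * (p - 1)) ≤ ∑ p ∈ Ioc z N, 1 / ((p : ℝ) * (p - 1)) := by
          apply sum_le_sum_of_subset_of_nonneg (filter_subset _ _)
          intro p hp _
          rw [mem_Ioc] at hp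
          have hp3 : (3 : ℝ) ≤ p := by exact_mod_cast (by omega : 3 ≤ p)
          apply div_nonneg zero_le_one
          apply mul_nonneg <;> linarith
      _ ≤ 1 / (z : ℝ) - 1 / (N : ℝ) := sum_inv_mul z N (by omega) hN
      _ ≤ 1 / (z : ℝ) := by
          have : (0 : ℝ) ≤ 1 / (N : ℝ) := by positivity
          linarith
  have h6 : ∑ p ∈ (Ioc z N).filter Nat.Prime, (jacobiSym D p : ℝ) / p ≤ |SJ D z N| := le_abs_self _
  have h7 : (4 : ℝ) / z = 4 * (1 / z) := by ring
  rw [h7]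
  linarith

theorem CF_limit_ge (a b c : ℤ) (ha : 0 < a) (K : ℝ) (hK : Tendsto (fun z => CF a b c z) atTop (𝓝 K)) (z : ℕ)
    (hz : 2 ≤ z) (haz : a ≤ z) (ε : ℝ) (hε : ∀ᶠ N in atTop, |SJ (b ^ 2 - 4 * a * c) z N| ≤ ε) :
    CF a b c z * Real.exp (-(ε + 4 / z)) ≤ K := by
  apply ge_of_tendsto hK
  filter_upwards [hε, eventually_ge_atTop z] with N h1 hN
  rw [CF_split a b c ha z N hz haz hN]
  apply mul_le_mul_of_nonneg_left _ (CF_pos a b c z).le
  refine le_trans (Real.exp_le_exp.2 ?_) (PJ_ge _ z N hz hN)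
  linarith

/-- the limit is close to the cut product -/
theorem CF_close (a b c : ℤ) (ha : 0 < a) (K : ℝ) (hK : Tendsto (fun z => CF a b c z) atTop (𝓝 K)) (z : ℕ)
    (hz : 2 ≤ z) (haz : a ≤ z) (ε : ℝ) (hε : ∀ᶠ N in atTop, |SJ (b ^ 2 - 4 * a * c) z N| ≤ ε) :
    |K - CF a b c z| ≤ CF a b c z * (Real.exp (ε + 4 / z) - 1) := by
  have h1 := CF_limit_ge a b c ha K hK z hz haz ε hε
  have h2 := CF_limit_le a b c ha K hK z hz haz ε hε
  have hz0 : (0 : ℝ) < z := by positivity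
  have hC := CF_pos a b c z
  have h3 : Real.exp (ε + 1 / z) ≤ Real.exp (ε + 4 / z) := by
    apply Real.exp_le_exp.2
    have : (1 : ℝ) / z ≤ 4 / z := div_le_div_of_nonneg_right (by norm_num) hz0.le
    linarith
  have h4 : 1 - Real.exp (-(ε + 4 / z)) ≤ Real.exp (ε + 4 / z) - 1 := by
    have h5 := Real.add_one_le_exp (ε + 4 / z)
    have h6 := Real.add_one_le_exp (-(ε + 4 / z))
    linarith
  have h7 : K ≤ CF a b c z * Real.exp (ε + 4 / z) := h2.trans (mul_le_mul_of_nonneg_left h3 hC.le)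
  rw [abs_le]
  constructor
  · have h8 := mul_le_mul_of_nonneg_left h4 hC.le
    have e1 : CF a b c z * (1 - Real.exp (-(ε + 4 / z))) = CF a b c z - CF a b c z * Real.exp (-(ε + 4 / z)) := by ring
    linarith
  · have e1 : CF a b c z * (Real.exp (ε + 4 / z) - 1) = CF a b c z * Real.exp (ε + 4 / z) - CF a b c z := by ring
    linarith

/-- the singular product is the Euler product of Bateman and Horn -/
lemma SS_euler {k : ℕ} (F G : Fin k → ℤ[X]) (a : Fin k → ℕ) (hG : ∀ i, ∀ n : ℤ, (G i).eval n = (a i : ℤ) + (F i).eval n)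
    (w : ℕ) : SS F a w = eulerProduct G w := by
  classical
  unfold SS eulerProduct Vz
  have e : (range (w + 1)).filter Nat.Prime = pz w := by
    ext p
    rw [mem_filter, mem_range, mem_pz]
    constructor
    · rintro ⟨h1, h2⟩; exact ⟨by omega, h2⟩
    · rintro ⟨h1, h2⟩; exact ⟨by omega, h2⟩
  rw [e, ← prod_inv_distrib, ← prod_pow, ← prod_mul_distrib]
  apply prod_congr rfl
  intro p _
  have h1 : rho F a p = omegaP G p := by
    unfold rho omegaP
    congr 1
    apply filter_congr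
    intro r _
    simp only [hG]
  rw [h1, inv_pow]

/-- one variable: the singular product is a mean of the sieve model -/
lemma SS_one (F : Fin 1 → ℤ[X]) (a : Fin 1 → ℕ) (w : ℕ) :
    SS F a w = (∑ r ∈ range (WW w), LL w ((a 0 : ℤ) + (F 0).eval (r : ℤ))) / WW w := by
  classical
  have hW : (0 : ℝ) < WW w := by exact_mod_cast WW_pos w
  rw [eq_div_iff hW.ne']
  have h1 := GG_card F a w
  have h2 : SS F a w * WW w = (Vz w)⁻¹ * (GG F a w).card := by
    unfold SS; rw [h1, pow_one]; ring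
  rw [h2]
  have h3 : ((GG F a w).card : ℝ) = ∑ r ∈ range (WW w), if (∀ p ∈ pz w, ¬ (p : ℤ) ∣ (a 0 : ℤ) + (F 0).eval (r : ℤ)) then 1 else 0 := by
    rw [sum_boole]
    congr 2
    unfold GG
    apply filter_congr
    intro r _
    constructor
    · intro h p hp hd
      exact h p hp ⟨0, (dvd_val F a 0 p r).2 hd⟩
    · rintro h p hp ⟨i, hi⟩
      have hi0 : i = 0 := Subsingleton.elim _ _
      subst hi0
      exact h p hp ((dvd_val F a 0 p r).1 hi)
  rw [h3, mul_sum]
  apply sum_congr rfl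
  intro r _
  unfold LL
  split_ifs <;> simp

/-- the mean of the sieve model -/
lemma LL_mean : ∀ E : ℕ, ∃ N0 : ℕ, ∀ A : ℕ, N0 ≤ A → ∀ w : ℕ, 1 ≤ w → (w : ℝ) ≤ Real.log A ^ E → ∀ u : ℤ,
    ∑ a ∈ Icc 1 A, LL w (a + u) ≤ 2 * A := by
  intro E
  obtain ⟨N1, h1⟩ := corr E 1
  refine ⟨max N1 3, fun A hA w hw1 hw u => ?_⟩
  have h2 := h1 A ((le_max_left _ _).trans hA) 1 w le_rfl hw1 hw u 0
  have hA3 : 3 ≤ A := (le_max_right _ _).trans hA
  have hA0 : (0 : ℝ) < A := by positivity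
  have hl : 1 ≤ Real.log A := by
    rw [Real.le_log_iff_exp_le hA0]
    have := Real.exp_one_lt_d9
    have h3 : (3 : ℝ) ≤ A := by exact_mod_cast hA3
    linarith
  have e1 : pz 1 = ∅ := by
    ext p
    rw [mem_pz]
    constructor
    · rintro ⟨h3, h4⟩
      have := h4.two_le
      omega
    · simp
  have e2 : ∀ m : ℤ, LL 1 m = 1 := by
    intro m; unfold LL Vz; rw [e1]; simp
  have e3 : hh 1 u 0 = 1 := by
    unfold hh Vz; rw [e1]; simp
  simp only [e2, mul_one, e3, pow_one] at h2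
  have h3 : (A : ℝ) / Real.log A ≤ A := div_le_self hA0.le hl
  have := (abs_le.1 h2).2
  linarith

open Classical in
/-- few constant terms have a large singular product -/
lemma SS_large (F : Fin 1 → ℤ[X]) (w : ℕ) (hw : 1 ≤ w) : ∃ H0 : ℕ, ∀ H : ℕ, H0 ≤ H → ∀ T : ℝ, 0 < T →
    (((Icc 1 H).filter (fun c : ℕ => T < SS F (fun _ => c) w)).card : ℝ) ≤ 2 * H / T := by
  obtain ⟨N0, h0⟩ := LL_mean 1
  have hev : ∀ᶠ H : ℕ in atTop, (w : ℝ) ≤ Real.log H ^ 1 := by
    have h1 : Tendsto (fun H : ℕ => Real.log (H : ℝ)) atTop atTop := Real.tendsto_log_atTop.comp tendsto_natCast_atTop_atTop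
    filter_upwards [h1.eventually_ge_atTop (w : ℝ)] with H hH
    rw [pow_one]; exact hH
  obtain ⟨N1, h1⟩ := eventually_atTop.1 hev
  refine ⟨max N0 N1, fun H hH T hT => ?_⟩
  have k0 := h0 H ((le_max_left _ _).trans hH) w hw (h1 H ((le_max_right _ _).trans hH))
  rw [le_div_iff₀ hT]
  have hW : (0 : ℝ) < WW w := by exact_mod_cast WW_pos w
  have hnn : ∀ c : ℕ, 0 ≤ SS F (fun _ => c) w := by
    intro c
    rw [SS_one]
    apply div_nonneg _ hW.le
    exact sum_nonneg fun r _ => LL_nonneg _ _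
  calc (((Icc 1 H).filter (fun c : ℕ => T < SS F (fun _ => c) w)).card : ℝ) * T
      = ∑ _c ∈ (Icc 1 H).filter (fun c : ℕ => T < SS F (fun _ => c) w), T := by rw [sum_const, nsmul_eq_mul]
    _ ≤ ∑ c ∈ (Icc 1 H).filter (fun c : ℕ => T < SS F (fun _ => c) w), SS F (fun _ => c) w := by
        apply sum_le_sum
        intro c hc
        exact (mem_filter.1 hc).2.le
    _ ≤ ∑ c ∈ Icc 1 H, SS F (fun _ => c) w := by
        apply sum_le_sum_of_subset_of_nonneg (filter_subset _ _)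
        intro c _ _
        exact hnn c
    _ = (∑ r ∈ range (WW w), ∑ c ∈ Icc 1 H, LL w ((c : ℤ) + (F 0).eval (r : ℤ))) / WW w := by
        rw [sum_comm, sum_div]
        apply sum_congr rfl
        intro c _
        rw [SS_one]
    _ ≤ (∑ _r ∈ range (WW w), 2 * (H : ℝ)) / WW w := by
        apply div_le_div_of_nonneg_right _ hW.le
        exact sum_le_sum fun r _ => k0 _
    _ = 2 * H := by
        rw [sum_const, card_range, nsmul_eq_mul]
        field_simp

/-- the integers are equidistributed -/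
lemma univ_equi (q r y : ℕ) (hq : 0 < q) (hr : r < q) :
    |(cntSq Set.univ q r y : ℝ) - cntS Set.univ y / q| ≤ 1 := by
  classical
  have h1 : cntS Set.univ y = y := by
    unfold cntS; simp
  have h2 : cntSq Set.univ q r y = ((Ioc 0 y).filter (fun n : ℕ => n ≡ r [MOD q])).card := by
    unfold cntSq
    congr 1
    ext n
    simp only [mem_filter, mem_Icc, mem_Ioc, Set.mem_univ, true_and]
    constructor
    · rintro ⟨⟨h3, h4⟩, h5⟩; exact ⟨⟨by omega, h4⟩, h5⟩
    · rintro ⟨⟨h3, h4⟩, h5⟩; exact ⟨⟨by omega, h4⟩, h5⟩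
  have hq0 : (0 : ℚ) < q := by exact_mod_cast hq
  have h3 := Nat.Ioc_filter_modEq_card 0 y hq r
  rw [h1, h2]
  set N : ℕ := ((Ioc 0 y).filter (fun n : ℕ => n ≡ r [MOD q])).card with hN
  have key : |(N : ℚ) - (y : ℚ) / q| ≤ 1 := by
    have h4 : (N : ℚ) = max (((⌊((y : ℚ) - r) / q⌋ - ⌊(((0 : ℕ) : ℚ) - r) / q⌋ : ℤ)) : ℚ) 0 := by
      have : ((N : ℤ) : ℚ) = ((max (⌊((y : ℚ) - r) / q⌋ - ⌊(((0 : ℕ) : ℚ) - r) / q⌋) 0 : ℤ) : ℚ) := by rw [h3]
      push_cast at this ⊢
      exact this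
    have a1 := Int.floor_le (((y : ℚ) - r) / q)
    have a2 := Int.lt_floor_add_one (((y : ℚ) - r) / q)
    have b1 := Int.floor_le ((((0 : ℕ) : ℚ) - r) / q)
    have b2 := Int.lt_floor_add_one ((((0 : ℕ) : ℚ) - r) / q)
    have e : ((y : ℚ) - r) / q - (((0 : ℕ) : ℚ) - r) / q = (y : ℚ) / q := by
      field_simp
      push_cast
      ring
    have hy0 : (0 : ℚ) ≤ (y : ℚ) / q := by positivity
    rw [h4]
    push_cast
    rcases le_total ((⌊((y : ℚ) - r) / q⌋ : ℚ) - (⌊((0 : ℚ) - r) / q⌋ : ℚ)) 0 with h | h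
    · rw [max_eq_right h, abs_le]
      push_cast at *
      constructor <;> linarith
    · rw [max_eq_left h, abs_le]
      push_cast at *
      constructor <;> linarith
  have : ((|(N : ℚ) - (y : ℚ) / q| : ℚ) : ℝ) ≤ ((1 : ℚ) : ℝ) := by exact_mod_cast key
  push_cast at this
  exact this

end Pool.Agent.U746.AS
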