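import Pool.Agent.H373R2.T7.Sys2
import Pool.Agent.H373R2.T7.SysCount

/-! The sieve model on the integers: pair correlations over an interval of shifts. -/

set_option autoImplicit false

namespace Pool.Agent.U746.AS
open Finset
open Pool.Agent.H373R2.T7

/-- the sieve model on the integers -/
noncomputable def LL (z : ℕ) (m : ℤ) : ℝ := if ∀ p ∈ pz z, ¬ (p : ℤ) ∣ m then (Vz z)⁻¹ else 0

lemma LL_nonneg (z : ℕ) (m : ℤ) : 0 ≤ LL z m := by
  unfold LL
  split_ifs
  · exact (inv_pos.2 (Vz_pos z)).le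
  · exact le_rfl

lemma LL_le (z : ℕ) (m : ℤ) : LL z m ≤ (Vz z)⁻¹ := by
  unfold LL
  split_ifs
  · exact le_rfl
  · exact (inv_pos.2 (Vz_pos z)).le

/-- number of excluded classes modulo `p` -/
def nu (u v : ℤ) (p : ℕ) : ℕ := if (p : ℤ) ∣ u - v then 1 else 2

/-- the local factors of the pair correlation -/
noncomputable def hh (z : ℕ) (u v : ℤ) : ℝ := (Vz z)⁻¹ ^ 2 * ∏ p ∈ pz z, (1 - (nu u v p : ℝ) / p)

lemma root1 (p : ℕ) (hp : 0 < p) (u : ℤ) :
    (range p).filter (fun r : ℕ => (p : ℤ) ∣ r + u) = {((-u) % p).toNat} := by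
  have hp0 : (0 : ℤ) < p := by exact_mod_cast hp
  have h1 := Int.emod_nonneg (-u) hp0.ne'
  have h2 := Int.emod_lt_of_pos (-u) hp0
  ext r
  rw [mem_filter, mem_range, mem_singleton]
  constructor
  · rintro ⟨hr, k, hk⟩
    have h3 : -u = r + p * (-k) := by linarith
    have h4 : (-u) % p = r := by
      rw [h3, Int.add_mul_emod_self_left]
      exact Int.emod_eq_of_lt (by positivity) (by exact_mod_cast hr)
    rw [h4]
    simp
  · rintro rfl
    have h3 : ((((-u) % p).toNat : ℕ) : ℤ) = (-u) % p := Int.toNat_of_nonneg h1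
    refine ⟨by omega, ?_⟩
    rw [h3]
    have h4 : (p : ℤ) ∣ (-u) - (-u) % p := Int.dvd_self_sub_emod
    have h5 : (-u) % p + u = -((-u) - (-u) % p) := by ring
    rw [h5]
    exact (dvd_neg).2 h4

/-- the condition -/
def QQ (w : ℕ) (u v : ℤ) (p a : ℕ) : Prop := (p : ℤ) ∣ a + u ∨ (p ≤ w ∧ (p : ℤ) ∣ a + v)

lemma dvd_mod_iff (p a : ℕ) (u : ℤ) : (p : ℤ) ∣ a + u ↔ (p : ℤ) ∣ ((a % p : ℕ) : ℤ) + u := by
  have h : (a : ℤ) + u = (((a % p : ℕ) : ℤ) + u) + p * ((a / p : ℕ) : ℤ) := by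
    have h1 := Nat.mod_add_div a p
    have h2 : ((a % p : ℕ) : ℤ) + p * ((a / p : ℕ) : ℤ) = a := by exact_mod_cast h1
    linarith
  rw [h]
  exact (Int.dvd_add_left (dvd_mul_right _ _))

lemma nuB_big (w : ℕ) (u v : ℤ) (p : ℕ) (hp : p.Prime) (hw : w < p) : nuB (QQ w u v) p = 1 := by
  classical
  unfold nuB QQ
  have e : (range p).filter (fun r : ℕ => (p : ℤ) ∣ r + u ∨ (p ≤ w ∧ (p : ℤ) ∣ r + v)) =
      (range p).filter (fun r : ℕ => (p : ℤ) ∣ r + u) := by
    apply filter_congr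
    intro r _
    constructor
    · rintro (h | h)
      · exact h
      · omega
    · exact Or.inl
  have e2 : (range p).filter (fun r : ℕ => (p : ℤ) ∣ r + u ∨ (p ≤ w ∧ (p : ℤ) ∣ r + v)) =
      {((-u) % p).toNat} := by rw [e, root1 p hp.pos u]
  have e3 := congrArg card e2
  rw [card_singleton] at e3
  convert e3

lemma nuB_small (w : ℕ) (u v : ℤ) (p : ℕ) (hp : p.Prime) (hw : p ≤ w) : nuB (QQ w u v) p = nu u v p := by
  classical
  have hp0 : (0 : ℤ) < p := by exact_mod_cast hp.pos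
  have e : (range p).filter (fun r : ℕ => QQ w u v p r) =
      {((-u) % p).toNat} ∪ {((-v) % p).toNat} := by
    rw [← root1 p hp.pos u, ← root1 p hp.pos v, ← filter_or]
    apply filter_congr
    intro r _
    unfold QQ
    constructor
    · rintro (h | h)
      · exact Or.inl h
      · exact Or.inr h.2
    · rintro (h | h)
      · exact Or.inl h
      · exact Or.inr ⟨hw, h⟩
  have h1 := Int.emod_nonneg (-u) hp0.ne'
  have h1' := Int.emod_nonneg (-v) hp0.ne'
  have key : nuB (QQ w u v) p = (({((-u) % p).toNat} : Finset ℕ) ∪ {((-v) % p).toNat}).card := by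
    unfold nuB
    convert congrArg card e
  rw [key]
  unfold nu
  split_ifs with h
  · have h2 : (-u) % p = (-v) % p := by
      apply Int.ModEq.symm
      apply Int.modEq_of_dvd
      have : -u - -v = -(u - v) := by ring
      rw [this]
      exact (dvd_neg).2 h
    rw [h2]
    simp
  · rw [card_union_of_disjoint, card_singleton, card_singleton]
    rw [disjoint_singleton]
    intro h2
    apply h
    have h3 : (-u) % p = (-v) % p := by omega
    have h4 : (-u) ≡ (-v) [ZMOD p] := h3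
    have h5 := h4.dvd
    have : u - v = -v - -u := by ring
    rw [this]
    exact h5

lemma QQ_per (w : ℕ) (u v : ℤ) : PerB (QQ w u v) 2 := by
  refine ⟨fun p n => ?_, fun p hp => ?_⟩
  · unfold QQ
    rw [dvd_mod_iff p n u, dvd_mod_iff p n v]
  · rcases lt_or_ge w p with h | h
    · rw [nuB_big w u v p hp h]; norm_num
    · rw [nuB_small w u v p hp h]
      unfold nu
      split_ifs <;> norm_num

lemma pz_split {w z : ℕ} (h : w ≤ z) (f : ℕ → ℝ) :
    ∏ p ∈ pz z, f p = (∏ p ∈ pz w, f p) * ∏ p ∈ (pz z).filter (fun p => w < p), f p := by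
  rw [← prod_filter_mul_prod_filter_not (pz z) (fun p => w < p), mul_comm]
  congr 1
  apply prod_congr _ fun _ _ => rfl
  ext p
  rw [mem_filter, mem_pz, mem_pz]
  constructor
  · rintro ⟨⟨_, h2⟩, h3⟩
    exact ⟨by omega, h2⟩
  · rintro ⟨h1, h2⟩
    exact ⟨⟨by omega, h2⟩, by omega⟩

lemma one_sub_pos {p : ℕ} (hp : p.Prime) : (0 : ℝ) < 1 - 1 / (p : ℝ) := by
  have h2 : (2 : ℝ) ≤ p := by exact_mod_cast hp.two_le
  have : 1 / (p : ℝ) ≤ 1 / 2 := one_div_le_one_div_of_le (by norm_num) h2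
  linarith

lemma nu_le_two (u v : ℤ) (p : ℕ) : nu u v p ≤ 2 := by
  unfold nu; split_ifs <;> norm_num

lemma nu_fac_nonneg (u v : ℤ) {p : ℕ} (hp : p.Prime) : (0 : ℝ) ≤ 1 - (nu u v p : ℝ) / p := by
  have h2 : (2 : ℝ) ≤ p := by exact_mod_cast hp.two_le
  have h3 : (nu u v p : ℝ) ≤ 2 := by exact_mod_cast nu_le_two u v p
  rw [sub_nonneg, div_le_one (by linarith)]
  linarith

lemma nu_fac_le (u v : ℤ) {p : ℕ} (hp : p.Prime) : 1 - (nu u v p : ℝ) / p ≤ 1 := by
  have : (0 : ℝ) ≤ (nu u v p : ℝ) / p := by positivity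
  linarith

lemma hh_nonneg (z : ℕ) (u v : ℤ) : 0 ≤ hh z u v := by
  unfold hh
  apply mul_nonneg (by positivity)
  exact prod_nonneg fun p hp => nu_fac_nonneg u v (mem_pz.1 hp).2

lemma hh_le (z : ℕ) (u v : ℤ) : hh z u v ≤ (Vz z)⁻¹ ^ 2 := by
  unfold hh
  have h := Vz_pos z
  refine mul_le_of_le_one_right (by positivity) ?_
  exact prod_le_one (fun p hp => nu_fac_nonneg u v (mem_pz.1 hp).2) (fun p hp => nu_fac_le u v (mem_pz.1 hp).2)

/-- one-dimensional pair correlations -/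
theorem corr (E U : ℕ) : ∃ N0 : ℕ, ∀ A : ℕ, N0 ≤ A → ∀ w z : ℕ, 1 ≤ w → w ≤ z → (z : ℝ) ≤ Real.log A ^ E →
    ∀ u v : ℤ, |∑ a ∈ Icc 1 A, LL z (a + u) * LL w (a + v) - A * hh w u v| ≤ A / Real.log A ^ U := by
  classical
  obtain ⟨N1, h1⟩ := sys_count 2 E (U + 2) (by norm_num)
  obtain ⟨N2, h2⟩ := Vz_inv_small E
  obtain ⟨N3, h3⟩ := ev_L' 1
  refine ⟨max N1 (max N2 N3), fun A hA w z hw hwz hz u v => ?_⟩
  have k1 := h1 A (le_trans (le_max_left _ _) hA) z (by omega) hz (QQ w u v) (QQ_per w u v)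
  have hA2 : N2 ≤ A := le_trans (le_trans (le_max_left _ _) (le_max_right _ _)) hA
  have k2 := h2 A hA2 z (by omega) hz
  have k2' := h2 A hA2 w hw (le_trans (by exact_mod_cast hwz) hz)
  have hL := h3 A (le_trans (le_trans (le_max_right _ _) (le_max_right _ _)) hA)
  have hL0 : 0 < Real.log A := by linarith
  have hVz := Vz_pos z
  have hVw := Vz_pos w
  have e1 : ∑ a ∈ Icc 1 A, LL z (a + u) * LL w (a + v) = (Vz z)⁻¹ * (Vz w)⁻¹ *
      ((((Icc 1 A).filter (fun n : ℕ => ∀ p ∈ pz z, ¬ QQ w u v p n)).card : ℕ) : ℝ) := by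
    rw [mul_comm ((Vz z)⁻¹ * (Vz w)⁻¹), ← nsmul_eq_mul, ← sum_const, sum_filter]
    apply sum_congr rfl
    intro a _
    unfold LL QQ
    by_cases ha : ∀ p ∈ pz z, ¬ (p : ℤ) ∣ a + u
    · by_cases hb : ∀ p ∈ pz w, ¬ (p : ℤ) ∣ a + v
      · rw [if_pos ha, if_pos hb, if_pos]
        intro p hp
        rintro (h | h)
        · exact ha p hp h
        · exact hb p (mem_pz.2 ⟨h.1, (mem_pz.1 hp).2⟩) h.2
      · rw [if_pos ha, if_neg hb, if_neg, mul_zero]
        intro h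
        apply hb
        intro p hp h4
        rw [mem_pz] at hp
        exact h p (mem_pz.2 ⟨by omega, hp.2⟩) (Or.inr ⟨hp.1, h4⟩)
    · rw [if_neg ha, zero_mul, if_neg]
      intro h
      apply ha
      intro p hp h4
      exact h p hp (Or.inl h4)
  have e2 : ∏ p ∈ pz z, (1 - (nuB (QQ w u v) p : ℝ) / p) =
      (∏ p ∈ pz w, (1 - (nu u v p : ℝ) / p)) * ∏ p ∈ (pz z).filter (fun p => w < p), (1 - 1 / (p : ℝ)) := by
    rw [pz_split hwz]
    congr 1
    · apply prod_congr rfl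
      intro p hp
      rw [mem_pz] at hp
      rw [nuB_small w u v p hp.2 hp.1]
    · apply prod_congr rfl
      intro p hp
      rw [mem_filter, mem_pz] at hp
      rw [nuB_big w u v p hp.1.2 hp.2]
      norm_num
  have e3 : Vz z = Vz w * ∏ p ∈ (pz z).filter (fun p => w < p), (1 - 1 / (p : ℝ)) := by
    unfold Vz
    exact pz_split hwz _
  have e4 : (A : ℝ) * hh w u v = (Vz z)⁻¹ * (Vz w)⁻¹ * (A * ∏ p ∈ pz z, (1 - (nuB (QQ w u v) p : ℝ) / p)) := by
    rw [e2]
    unfold hh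
    have hR : ∏ p ∈ (pz z).filter (fun p => w < p), (1 - 1 / (p : ℝ)) = Vz z / Vz w := by
      rw [e3]; field_simp
    rw [hR]
    field_simp
  rw [e1, e4, ← mul_sub, abs_mul, abs_of_pos (by positivity)]
  calc (Vz z)⁻¹ * (Vz w)⁻¹ * _ ≤ (Real.log A * Real.log A) * (A / Real.log A ^ (U + 2)) := by
        apply mul_le_mul (mul_le_mul k2 k2' (by positivity) hL0.le) k1 (abs_nonneg _) (by positivity)
    _ = A / Real.log A ^ U := by
        rw [pow_add]
        field_simp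

end Pool.Agent.U746.AS
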