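import Pool.Agent.U746.AS.Pt

/-! Sets which are equidistributed in residue classes. -/

set_option autoImplicit false

namespace Pool.Agent.U746.AS
open Finset Polynomial Filter Topology
open Pool.Agent.H373R2.T7

open Classical in
/-- the number of the elements `≤ y` of `S` -/
noncomputable def cntS (S : Set ℕ) (y : ℕ) : ℕ := ((Icc 1 y).filter (fun n : ℕ => n ∈ S)).card

open Classical in
/-- the number of the elements `≤ y` of `S` in a residue class -/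
noncomputable def cntSq (S : Set ℕ) (q r y : ℕ) : ℕ := ((Icc 1 y).filter (fun n : ℕ => n ∈ S ∧ n ≡ r [MOD q])).card

/-- `S` is equidistributed in the residue classes modulo every `q` -/
def Equi (S : Set ℕ) : Prop := ∀ q : ℕ, 1 ≤ q → ∀ r : ℕ,
  Tendsto (fun x : ℕ => ((cntSq S q r x : ℝ) - cntS S x / q) / x) atTop (𝓝 0)

lemma cntS_le (S : Set ℕ) (y : ℕ) : cntS S y ≤ y := by
  classical
  unfold cntS
  refine (card_filter_le _ _).trans ?_
  simp

lemma cntSq_le (S : Set ℕ) (q r y : ℕ) : cntSq S q r y ≤ y := by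
  classical
  unfold cntSq
  refine (card_filter_le _ _).trans ?_
  simp

lemma equi_unif {S : Set ℕ} (hS : Equi S) (q : ℕ) (hq : 1 ≤ q) (δ : ℝ) (hδ : 0 < δ) :
    ∃ x0 : ℕ, ∀ x : ℕ, x0 ≤ x → ∀ y : ℕ, y ≤ x → ∀ r ∈ range q, |(cntSq S q r y : ℝ) - cntS S y / q| ≤ δ * x := by
  have h1 : ∀ r : ℕ, ∃ y0 : ℕ, ∀ y : ℕ, y0 ≤ y → |(cntSq S q r y : ℝ) - cntS S y / q| ≤ δ * y := by
    intro r
    have h2 := (hS q hq r).eventually (Metric.ball_mem_nhds 0 hδ)
    obtain ⟨y0, h3⟩ := eventually_atTop.1 h2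
    refine ⟨max y0 1, fun y hy => ?_⟩
    have h4 := h3 y ((le_max_left _ _).trans hy)
    have hy0 : (0 : ℝ) < y := by exact_mod_cast (lt_of_lt_of_le one_pos ((le_max_right _ _).trans hy))
    rw [dist_zero_right, Real.norm_eq_abs, abs_div, abs_of_pos hy0, div_lt_iff₀ hy0] at h4
    exact h4.le
  choose y0 hy0 using h1
  set Y := (range q).sup y0 with hY
  refine ⟨⌈(Y : ℝ) / δ⌉₊, fun x hx y hyx r hr => ?_⟩
  have hxr : (y : ℝ) ≤ x := by exact_mod_cast hyx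
  rcases le_or_gt (y0 r) y with h | h
  · exact (hy0 r y h).trans (mul_le_mul_of_nonneg_left hxr hδ.le)
  · have h5 : y0 r ≤ Y := le_sup (f := y0) hr
    have h6 : (y : ℝ) ≤ Y := by exact_mod_cast (by omega : y ≤ Y)
    have h7 : (Y : ℝ) ≤ δ * x := by
      have : (Y : ℝ) / δ ≤ x := (Nat.le_ceil _).trans (by exact_mod_cast hx)
      rw [div_le_iff₀ hδ] at this
      linarith
    have h8 : (cntSq S q r y : ℝ) ≤ y := by exact_mod_cast cntSq_le S q r y
    have h9 : (cntS S y : ℝ) / q ≤ y := by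
      have h10 : (cntS S y : ℝ) ≤ y := by exact_mod_cast cntS_le S y
      have h11 : (1 : ℝ) ≤ q := by exact_mod_cast hq
      exact (div_le_self (Nat.cast_nonneg _) h11).trans h10
    have h12 : (0 : ℝ) ≤ (cntSq S q r y : ℝ) := Nat.cast_nonneg _
    have h13 : (0 : ℝ) ≤ (cntS S y : ℝ) / q := by positivity
    rw [abs_le]
    constructor <;> linarith

open Classical in
/-- the number of the classes modulo `p` in which one of the values is divisible by `p` -/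
noncomputable def rho {k : ℕ} (F : Fin k → ℤ[X]) (a : Fin k → ℕ) (p : ℕ) : ℕ :=
  ((range p).filter (fun r : ℕ => ∃ i, (p : ℤ) ∣ (a i : ℤ) + (F i).eval (r : ℤ))).card

lemma rho_le' {k : ℕ} (F : Fin k → ℤ[X]) (a : Fin k → ℕ) (p : ℕ) : rho F a p ≤ p := by
  classical
  unfold rho
  refine (card_filter_le _ _).trans ?_
  simp

/-- the singular product, cut at `w` -/
noncomputable def SS {k : ℕ} (F : Fin k → ℤ[X]) (a : Fin k → ℕ) (w : ℕ) : ℝ :=
  (Vz w)⁻¹ ^ k * ∏ p ∈ pz w, (1 - (rho F a p : ℝ) / p)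

/-- the product of the primes up to `w` -/
def WW (w : ℕ) : ℕ := ∏ p ∈ pz w, p

lemma WW_pos (w : ℕ) : 0 < WW w := prod_pos fun p hp => (mem_pz.1 hp).2.pos

lemma dvd_WW {w p : ℕ} (hp : p ∈ pz w) : p ∣ WW w := dvd_prod_of_mem _ hp

open Classical in
/-- the good classes -/
noncomputable def GG {k : ℕ} (F : Fin k → ℤ[X]) (a : Fin k → ℕ) (w : ℕ) : Finset ℕ :=
  (range (WW w)).filter (fun n => ∀ p ∈ pz w, ¬ ∃ i, (p : ℤ) ∣ (a i : ℤ) + (F i).eval ((n % p : ℕ) : ℤ))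

lemma GG_card {k : ℕ} (F : Fin k → ℤ[X]) (a : Fin k → ℕ) (w : ℕ) :
    ((GG F a w).card : ℝ) = WW w * ∏ p ∈ pz w, (1 - (rho F a p : ℝ) / p) := by
  classical
  unfold GG WW
  rw [crt_card (fun p b => ¬ ∃ i, (p : ℤ) ∣ (a i : ℤ) + (F i).eval (b : ℤ)) (pz w) (fun p hp => (mem_pz.1 hp).2)]
  push_cast
  rw [← prod_mul_distrib]
  apply prod_congr rfl
  intro p hp
  have hp0 : (p : ℝ) ≠ 0 := by exact_mod_cast (mem_pz.1 hp).2.ne_zero
  have h1 := card_filter_add_card_filter_not (s := range p) (fun b : ℕ => ∃ i, (p : ℤ) ∣ (a i : ℤ) + (F i).eval (b : ℤ))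
  rw [card_range] at h1
  have h2 : (rho F a p : ℝ) + (((range p).filter (fun b : ℕ => ¬ ∃ i, (p : ℤ) ∣ (a i : ℤ) + (F i).eval (b : ℤ))).card : ℝ) = p := by
    unfold rho
    exact_mod_cast h1
  rw [mul_sub, mul_one, mul_div_cancel₀ _ hp0]
  linarith

lemma dvd_val {k : ℕ} (F : Fin k → ℤ[X]) (a : Fin k → ℕ) (i : Fin k) (p n : ℕ) :
    (p : ℤ) ∣ (a i : ℤ) + (F i).eval ((n % p : ℕ) : ℤ) ↔ (p : ℤ) ∣ (a i : ℤ) + (F i).eval (n : ℤ) := by
  have h3 := Pool.Agent.TH882.PA.eval_congr (F i) p n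
  have h4 : (a i : ℤ) + (F i).eval (n : ℤ) = ((a i : ℤ) + (F i).eval ((n % p : ℕ) : ℤ)) +
    ((F i).eval (n : ℤ) - (F i).eval ((n % p : ℕ) : ℤ)) := by ring
  rw [h4]
  exact (Int.dvd_add_left h3).symm

lemma MM_classes {k : ℕ} (F : Fin k → ℤ[X]) (a : Fin k → ℕ) (S : Set ℕ) (w y : ℕ) :
    MM F a S w y = ∑ r ∈ GG F a w, cntSq S (WW w) r y := by
  classical
  unfold MM
  rw [card_eq_sum_card_fiberwise (f := fun n => n % WW w) (t := GG F a w)]
  · apply sum_congr rfl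
    intro r hr
    unfold GG at hr
    rw [mem_filter, mem_range] at hr
    unfold cntSq
    congr 1
    ext n
    simp only [mem_filter]
    have hmod : n ≡ r [MOD WW w] ↔ n % WW w = r := by
      unfold Nat.ModEq
      rw [Nat.mod_eq_of_lt hr.1]
    rw [hmod]
    constructor
    · rintro ⟨⟨h1, h2, -⟩, h3⟩
      exact ⟨h1, h2, h3⟩
    · rintro ⟨h1, h2, h3⟩
      refine ⟨⟨h1, h2, fun i p hp hd => ?_⟩, h3⟩
      apply hr.2 p hp
      refine ⟨i, ?_⟩
      have h4 : n % p = r % p := by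
        rw [← h3, Nat.mod_mod_of_dvd _ (dvd_WW hp)]
      rw [← h4]
      exact (dvd_val F a i p n).2 hd
  · intro n hn
    rw [mem_coe, mem_filter] at hn
    rw [mem_coe]
    unfold GG
    rw [mem_filter, mem_range]
    refine ⟨Nat.mod_lt _ (WW_pos w), fun p hp => ?_⟩
    rintro ⟨i, hi⟩
    rw [Nat.mod_mod_of_dvd _ (dvd_WW hp)] at hi
    exact hn.2.2 i p hp ((dvd_val F a i p n).1 hi)

lemma MM_equi {k : ℕ} (F : Fin k → ℤ[X]) (a : Fin k → ℕ) (S : Set ℕ) (w y : ℕ) (δ : ℝ)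
    (h : ∀ r ∈ range (WW w), |(cntSq S (WW w) r y : ℝ) - cntS S y / WW w| ≤ δ) (hδ : 0 ≤ δ) :
    |(MM F a S w y : ℝ) - (∏ p ∈ pz w, (1 - (rho F a p : ℝ) / p)) * cntS S y| ≤ WW w * δ := by
  have hW : (0 : ℝ) < WW w := by exact_mod_cast WW_pos w
  have h1 : (∏ p ∈ pz w, (1 - (rho F a p : ℝ) / p)) * cntS S y = ∑ _r ∈ GG F a w, (cntS S y : ℝ) / WW w := by
    rw [sum_const, nsmul_eq_mul, GG_card]
    field_simp
  rw [MM_classes, h1]
  push_cast
  rw [← sum_sub_distrib]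
  have hsub : GG F a w ⊆ range (WW w) := by
    classical
    exact filter_subset _ _
  refine (abs_sum_le_sum_abs _ _).trans ((sum_le_sum fun r hr => h r (hsub hr)).trans ?_)
  rw [sum_const, nsmul_eq_mul]
  apply mul_le_mul_of_nonneg_right _ hδ
  have := card_le_card hsub
  rw [card_range] at this
  exact_mod_cast this

open Classical in
/-- **equidistributed sets** -/
theorem equi {k : ℕ} (F : Fin k → ℤ[X]) (hd : ∀ i, 1 ≤ (F i).natDegree) (hl : ∀ i, 0 < (F i).leadingCoeff)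
    (B : ℕ) (hB : 1 ≤ B) (ε : ℝ) (hε : 0 < ε) : ∃ w0 : ℕ, 3 ≤ w0 ∧ ∀ w : ℕ, w0 ≤ w → ∀ S : Set ℕ, Equi S → ∃ x0 : ℕ,
    ∀ x : ℕ, x0 ≤ x →
    ∀ A : Fin k → ℕ, (∀ i, A i ≤ B * x ^ (F i).natDegree ∧ x ^ (F i).natDegree ≤ B * A i) →
    (((Fintype.piFinset (fun i => Icc 1 (A i))).filter (fun a => ¬ ∀ y : ℕ, y ≤ x →
      |Lam F x * NN F a S y - SS F a w * cntS S y| ≤ ε * x)).card : ℝ) ≤ ε * ∏ i, (A i : ℝ) := by
  obtain ⟨w0, h3, h0⟩ := arb F hd hl B hB (ε / 2) (by positivity)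
  refine ⟨w0, h3, fun w hw S hS => ?_⟩
  obtain ⟨x1, h1⟩ := h0 w hw
  set V : ℝ := (Vz w)⁻¹ ^ k with hV
  have hVz := Vz_pos w
  have hV0 : 0 < V := by positivity
  have hW : (0 : ℝ) < WW w := by exact_mod_cast WW_pos w
  obtain ⟨x2, h2⟩ := equi_unif hS (WW w) (WW_pos w) (ε / (2 * V * WW w)) (by positivity)
  refine ⟨max x1 x2, fun x hx A hA => ?_⟩
  have k1 := h1 x ((le_max_left _ _).trans hx) A hA S
  have k2 := h2 x ((le_max_right _ _).trans hx)
  have hPA0 : (0 : ℝ) ≤ ∏ i, (A i : ℝ) := prod_nonneg fun i _ => Nat.cast_nonneg _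
  refine le_trans ?_ (k1.trans (mul_le_mul_of_nonneg_right (by linarith) hPA0))
  apply Nat.cast_le.2
  apply card_le_card
  intro a ha
  rw [mem_filter] at ha ⊢
  refine ⟨ha.1, fun h => ha.2 fun y hy => ?_⟩
  have g1 := h y hy
  have g2 := MM_equi F a S w y (ε / (2 * V * WW w) * x) (k2 y hy) (by positivity)
  have e1 : (WW w : ℝ) * (ε / (2 * V * WW w) * x) = ε / (2 * V) * x := by field_simp
  rw [e1] at g2
  have g3 : |V * MM F a S w y - SS F a w * cntS S y| ≤ ε / 2 * x := by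
    have e2 : V * MM F a S w y - SS F a w * cntS S y =
        V * ((MM F a S w y : ℝ) - (∏ p ∈ pz w, (1 - (rho F a p : ℝ) / p)) * cntS S y) := by
      unfold SS; ring
    rw [e2, abs_mul, abs_of_pos hV0]
    refine (mul_le_mul_of_nonneg_left g2 hV0.le).trans (le_of_eq ?_)
    field_simp
  have e3 : Lam F x * NN F a S y - SS F a w * cntS S y =
      (Lam F x * NN F a S y - V * MM F a S w y) + (V * MM F a S w y - SS F a w * cntS S y) := by ring
  rw [e3]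
  refine (abs_add_le _ _).trans ?_
  linarith

end Pool.Agent.U746.AS
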