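import Pool.Agent.U746.AS.Base
import Pool.Agent.TH882.PolyAux

/-! Comparison of the correlations for two levels, and the sum of the comparison factors. -/

set_option autoImplicit false

namespace Pool.Agent.U746.AS
open Finset Polynomial
open Pool.Agent.H373R2.T7

/-- the primes in `(w, z]` -/
def PP (w z : ℕ) : Finset ℕ := (pz z).filter (fun p => w < p)

lemma mem_PP {w z p : ℕ} : p ∈ PP w z ↔ (p ≤ z ∧ p.Prime) ∧ w < p := by
  unfold PP
  rw [mem_filter, mem_pz]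

lemma fac_le {p : ℕ} (hp : p.Prime) (u v : ℤ) :
    1 - (nu u v p : ℝ) / p ≤ (1 - 1 / (p : ℝ)) ^ 2 * (if (p : ℤ) ∣ u - v then 1 + 2 / (p : ℝ) else 1) := by
  have h2 : (2 : ℝ) ≤ p := by exact_mod_cast hp.two_le
  obtain ⟨t, ht⟩ : ∃ t : ℝ, t = 1 / (p : ℝ) := ⟨_, rfl⟩
  have ht0 : 0 ≤ t := by rw [ht]; positivity
  have ht1 : t ≤ 1 / 2 := by rw [ht]; exact one_div_le_one_div_of_le (by norm_num) h2
  unfold nu
  split_ifs with h
  · have e1 : (((1 : ℕ) : ℝ)) / p = t := by rw [ht]; norm_num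
    have e2 : 2 / (p : ℝ) = 2 * t := by rw [ht]; ring
    rw [e1, e2, ← ht]
    have h1 : 0 ≤ 1 - t := by linarith
    have h3 : 0 ≤ t * (1 - 2 * t) := mul_nonneg ht0 (by linarith)
    nlinarith [mul_nonneg h1 h3]
  · have e1 : (((2 : ℕ) : ℝ)) / p = 2 * t := by rw [ht]; push_cast; ring
    rw [e1, ← ht, mul_one]
    nlinarith [sq_nonneg t]

lemma hh_mono {w z : ℕ} (hwz : w ≤ z) (u v : ℤ) :
    hh z u v ≤ hh w u v * ∏ p ∈ PP w z, (if (p : ℤ) ∣ u - v then 1 + 2 / (p : ℝ) else 1) := by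
  have hVz := Vz_pos z
  have hVw := Vz_pos w
  have e3 : Vz z = Vz w * ∏ p ∈ PP w z, (1 - 1 / (p : ℝ)) := by
    unfold Vz PP
    exact pz_split hwz _
  have hR : ∏ p ∈ PP w z, (1 - 1 / (p : ℝ)) = Vz z / Vz w := by
    rw [e3]; field_simp
  have h1 : ∏ p ∈ PP w z, (1 - (nu u v p : ℝ) / p) ≤
      (Vz z / Vz w) ^ 2 * ∏ p ∈ PP w z, (if (p : ℤ) ∣ u - v then 1 + 2 / (p : ℝ) else 1) := by
    rw [← hR, ← prod_pow, ← prod_mul_distrib]
    apply prod_le_prod
    · intro p hp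
      exact nu_fac_nonneg u v (mem_PP.1 hp).1.2
    · intro p hp
      exact fac_le (mem_PP.1 hp).1.2 u v
  unfold hh
  rw [pz_split hwz]
  have h2 : 0 ≤ ∏ p ∈ pz w, (1 - (nu u v p : ℝ) / p) :=
    prod_nonneg fun p hp => nu_fac_nonneg u v (mem_pz.1 hp).2
  calc (Vz z)⁻¹ ^ 2 * ((∏ p ∈ pz w, (1 - (nu u v p : ℝ) / p)) * ∏ p ∈ (pz z).filter (fun p => w < p), (1 - (nu u v p : ℝ) / p))
      = (Vz z)⁻¹ ^ 2 * (∏ p ∈ pz w, (1 - (nu u v p : ℝ) / p)) * ∏ p ∈ PP w z, (1 - (nu u v p : ℝ) / p) := by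
        unfold PP; ring
    _ ≤ (Vz z)⁻¹ ^ 2 * (∏ p ∈ pz w, (1 - (nu u v p : ℝ) / p)) *
        ((Vz z / Vz w) ^ 2 * ∏ p ∈ PP w z, (if (p : ℤ) ∣ u - v then 1 + 2 / (p : ℝ) else 1)) :=
        mul_le_mul_of_nonneg_left h1 (by positivity)
    _ = _ := by
        field_simp

lemma pow_bd (k : ℕ) (t : ℝ) (h0 : 0 ≤ t) (h1 : t ≤ 1) : (1 + 2 * t) ^ k ≤ 1 + (3 ^ k - 1) * t := by
  induction k with
  | zero => simp
  | succ k ih =>
    have h3 : (1 : ℝ) ≤ 3 ^ k := one_le_pow₀ (by norm_num)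
    rw [pow_succ, pow_succ]
    have h4 : (1 + 2 * t) ^ k * (1 + 2 * t) ≤ (1 + (3 ^ k - 1) * t) * (1 + 2 * t) :=
      mul_le_mul_of_nonneg_right ih (by linarith)
    refine h4.trans ?_
    have h5 : 0 ≤ (3 ^ k - 1) * (t * (1 - t)) := mul_nonneg (by linarith) (mul_nonneg h0 (by linarith))
    nlinarith

lemma prod_hh {k : ℕ} {w z : ℕ} (hwz : w ≤ z) (u v : Fin k → ℤ) :
    ∏ i, hh z (u i) (v i) ≤ (∏ i, hh w (u i) (v i)) *
      ∏ p ∈ PP w z, (1 + (if ∃ i, (p : ℤ) ∣ u i - v i then 3 ^ k / (p : ℝ) else 0)) := by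
  have h1 : ∏ i, hh z (u i) (v i) ≤ ∏ i, (hh w (u i) (v i) *
      ∏ p ∈ PP w z, (if (p : ℤ) ∣ u i - v i then 1 + 2 / (p : ℝ) else 1)) :=
    prod_le_prod (fun i _ => hh_nonneg _ _ _) (fun i _ => hh_mono hwz _ _)
  refine h1.trans ?_
  rw [prod_mul_distrib, prod_comm]
  apply mul_le_mul_of_nonneg_left _ (prod_nonneg fun i _ => hh_nonneg _ _ _)
  apply prod_le_prod
  · intro p _
    apply prod_nonneg
    intro i _
    split_ifs <;> positivity
  · intro p hp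
    have hpp := (mem_PP.1 hp).1.2
    have h2 : (2 : ℝ) ≤ p := by exact_mod_cast hpp.two_le
    have hp0 : (0 : ℝ) < p := by linarith
    split_ifs with h
    · have h3 : ∏ i : Fin k, (if (p : ℤ) ∣ u i - v i then 1 + 2 / (p : ℝ) else 1) ≤ ∏ _i : Fin k, (1 + 2 * (1 / (p : ℝ))) := by
        apply prod_le_prod
        · intro i _
          split_ifs <;> positivity
        · intro i _
          have h4 : (0 : ℝ) ≤ 1 / (p : ℝ) := by positivity
          split_ifs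
          · apply le_of_eq; ring
          · linarith
      refine h3.trans ?_
      rw [prod_const, card_univ, Fintype.card_fin]
      refine (pow_bd k _ (by positivity) ?_).trans ?_
      · rw [div_le_one hp0]; linarith
      · have h4 : (0 : ℝ) ≤ 1 / (p : ℝ) := by positivity
        have h5 : (3 : ℝ) ^ k / p = 3 ^ k * (1 / p) := by ring
        rw [h5]
        nlinarith
    · push Not at h
      rw [add_zero]
      apply le_of_eq
      apply prod_eq_one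
      intro i _
      rw [if_neg (h i)]

/-- sum of the degrees -/
def Dg {k : ℕ} (F : Fin k → ℤ[X]) : ℕ := ∑ i, (F i).natDegree

open Classical in
lemma rho_le {k : ℕ} (F : Fin k → ℤ[X]) (hd : ∀ i, 1 ≤ (F i).natDegree) (p : ℕ) (hp : p.Prime)
    (hpl : ∀ i, ¬ (p : ℤ) ∣ (F i).leadingCoeff) (v : Fin k → ℤ) :
    ((range p).filter (fun r : ℕ => ∃ i, (p : ℤ) ∣ (F i).eval (r : ℤ) - v i)).card ≤ Dg F := by
  have h1 : (range p).filter (fun r : ℕ => ∃ i, (p : ℤ) ∣ (F i).eval (r : ℤ) - v i) ⊆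
      univ.biUnion (fun i => (range p).filter (fun r : ℕ => (p : ℤ) ∣ (F i).eval (r : ℤ) - v i)) := by
    intro r hr
    rw [mem_filter] at hr
    obtain ⟨h1, i, hi⟩ := hr
    rw [mem_biUnion]
    exact ⟨i, mem_univ _, mem_filter.2 ⟨h1, hi⟩⟩
  refine (card_le_card h1).trans (card_biUnion_le.trans ?_)
  unfold Dg
  exact sum_le_sum fun i _ => Pool.Agent.TH882.PA.roots_card (F i) (hd i) p hp (hpl i) (v i)

open Classical in
/-- the sum of the factors over one variable -/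
theorem gam_sum {k : ℕ} (F : Fin k → ℤ[X]) (hd : ∀ i, 1 ≤ (F i).natDegree) (w z x : ℕ)
    (hw : ∀ p : ℕ, w < p → ∀ i, ¬ (p : ℤ) ∣ (F i).leadingCoeff) (v : Fin k → ℤ) (C : ℝ) (hC : 0 ≤ C) :
    ∑ n ∈ Icc 1 x, ∏ p ∈ PP w z, (1 + (if ∃ i, (p : ℤ) ∣ (F i).eval (n : ℤ) - v i then C / (p : ℝ) else 0)) ≤
      x * ∏ p ∈ PP w z, (1 + C * Dg F / (p : ℝ) ^ 2) + ∏ p ∈ PP w z, (1 + C * Dg F / (p : ℝ)) := by
  have hexp : ∀ n ∈ Icc 1 x, ∏ p ∈ PP w z, (1 + (if ∃ i, (p : ℤ) ∣ (F i).eval (n : ℤ) - v i then C / (p : ℝ) else 0)) =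
      ∑ t ∈ (PP w z).powerset, (if ∀ p ∈ t, ∃ i, (p : ℤ) ∣ (F i).eval (n : ℤ) - v i then ∏ p ∈ t, (C / (p : ℝ)) else 0) := by
    intro n _
    rw [prod_one_add]
    apply sum_congr rfl
    intro t _
    split_ifs with h
    · apply prod_congr rfl
      intro p hp
      rw [if_pos (h p hp)]
    · push Not at h
      obtain ⟨p, hp, hi⟩ := h
      apply prod_eq_zero hp
      rw [if_neg (by push Not; exact hi)]
  rw [sum_congr rfl hexp, sum_comm]
  have hcount : ∀ t ∈ (PP w z).powerset,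
      (((Icc 1 x).filter (fun n : ℕ => ∀ p ∈ t, ∃ i, (p : ℤ) ∣ (F i).eval (n : ℤ) - v i)).card : ℝ) ≤
        x * ∏ p ∈ t, ((Dg F : ℝ) / p) + ∏ _p ∈ t, (Dg F : ℝ) := by
    intro t ht
    rw [mem_powerset] at ht
    have htp : ∀ p ∈ t, p.Prime := fun p hp => (mem_PP.1 (ht hp)).1.2
    have h1 := count_sys (fun p a => ∃ i, (p : ℤ) ∣ (F i).eval (a : ℤ) - v i) x t htp 1 le_rfl
      (fun p hp h => (htp p hp).one_lt.ne' (Nat.dvd_one.1 h)) 0
    have e1 : (Icc 1 x).filter (fun n : ℕ => n ≡ 0 [MOD 1] ∧ ∀ p ∈ t, ∃ i, (p : ℤ) ∣ (F i).eval ((n % p : ℕ) : ℤ) - v i) =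
        (Icc 1 x).filter (fun n : ℕ => ∀ p ∈ t, ∃ i, (p : ℤ) ∣ (F i).eval (n : ℤ) - v i) := by
      apply filter_congr
      intro n _
      have h2 : ∀ (p : ℕ) (i : Fin k), (p : ℤ) ∣ (F i).eval ((n % p : ℕ) : ℤ) - v i ↔ (p : ℤ) ∣ (F i).eval (n : ℤ) - v i := by
        intro p i
        have h3 := Pool.Agent.TH882.PA.eval_congr (F i) p n
        have h4 : (F i).eval (n : ℤ) - v i = ((F i).eval ((n % p : ℕ) : ℤ) - v i) +
          ((F i).eval (n : ℤ) - (F i).eval ((n % p : ℕ) : ℤ)) := by ring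
        rw [h4]
        exact (Int.dvd_add_left h3).symm
      constructor
      · rintro ⟨-, h⟩ p hp
        obtain ⟨i, hi⟩ := h p hp
        exact ⟨i, (h2 p i).1 hi⟩
      · intro h
        refine ⟨Nat.modEq_one, fun p hp => ?_⟩
        obtain ⟨i, hi⟩ := h p hp
        exact ⟨i, (h2 p i).2 hi⟩
    have h3 : ∀ p ∈ t, (((range p).filter (fun a : ℕ => ∃ i, (p : ℤ) ∣ (F i).eval (a : ℤ) - v i)).card : ℝ) ≤ Dg F := by
      intro p hp
      have hpP := mem_PP.1 (ht hp)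
      exact_mod_cast rho_le F hd p hpP.1.2 (hw p hpP.2) v
    rw [e1] at h1
    have h4 := (abs_le.1 h1).2
    have h5 : ∏ p ∈ t, ((((range p).filter (fun a : ℕ => ∃ i, (p : ℤ) ∣ (F i).eval (a : ℤ) - v i)).card : ℝ) / p) ≤
        ∏ p ∈ t, ((Dg F : ℝ) / p) := by
      apply prod_le_prod
      · intro p _; positivity
      · intro p hp
        exact div_le_div_of_nonneg_right (h3 p hp) (by positivity)
    have h6 : ∏ p ∈ t, (((range p).filter (fun a : ℕ => ∃ i, (p : ℤ) ∣ (F i).eval (a : ℤ) - v i)).card : ℝ) ≤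
        ∏ _p ∈ t, (Dg F : ℝ) := by
      apply prod_le_prod
      · intro p _; positivity
      · exact h3
    have h7 : (x : ℝ) / ((1 : ℕ) : ℝ) = x := by simp
    rw [h7] at h4
    have h8 : (x : ℝ) * ∏ p ∈ t, ((((range p).filter (fun a : ℕ => ∃ i, (p : ℤ) ∣ (F i).eval (a : ℤ) - v i)).card : ℝ) / p) ≤
        x * ∏ p ∈ t, ((Dg F : ℝ) / p) := mul_le_mul_of_nonneg_left h5 (by positivity)
    linarith
  have hterm : ∀ t ∈ (PP w z).powerset,
      ∑ n ∈ Icc 1 x, (if ∀ p ∈ t, ∃ i, (p : ℤ) ∣ (F i).eval (n : ℤ) - v i then ∏ p ∈ t, (C / (p : ℝ)) else 0) ≤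
      x * ∏ p ∈ t, (C * Dg F / (p : ℝ) ^ 2) + ∏ p ∈ t, (C * Dg F / (p : ℝ)) := by
    intro t ht
    rw [← sum_filter, sum_const, nsmul_eq_mul]
    have h1 := hcount t ht
    have h2 : 0 ≤ ∏ p ∈ t, (C / (p : ℝ)) := prod_nonneg fun p _ => by positivity
    refine (mul_le_mul_of_nonneg_right h1 h2).trans (le_of_eq ?_)
    rw [add_mul, mul_assoc, ← prod_mul_distrib, ← prod_mul_distrib]
    congr 1
    · congr 1
      apply prod_congr rfl
      intro p _
      ring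
    · apply prod_congr rfl
      intro p _
      ring
  refine (sum_le_sum hterm).trans (le_of_eq ?_)
  rw [sum_add_distrib, ← mul_sum, prod_one_add, prod_one_add]

lemma sum_inv_sq_le (w z : ℕ) (hw : 1 ≤ w) : ∑ p ∈ PP w z, 1 / (p : ℝ) ^ 2 ≤ 1 / (w : ℝ) := by
  rcases le_or_gt z w with h | h
  · have e : PP w z = ∅ := by
      rw [eq_empty_iff_forall_notMem]
      intro p hp
      have := mem_PP.1 hp
      omega
    rw [e, sum_empty]
    positivity
  · have h1 : ∑ p ∈ PP w z, 1 / (p : ℝ) ^ 2 ≤ ∑ p ∈ Ioc w z, 1 / (p : ℝ) ^ 2 := by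
      apply sum_le_sum_of_subset_of_nonneg
      · intro p hp
        have := mem_PP.1 hp
        rw [mem_Ioc]; omega
      · intro p _ _; positivity
    refine h1.trans ?_
    have h2 : ∀ n : ℕ, w ≤ n → ∑ p ∈ Ioc w n, 1 / (p : ℝ) ^ 2 ≤ 1 / (w : ℝ) - 1 / (n : ℝ) := by
      intro n hn
      induction n, hn using Nat.le_induction with
      | base => simp
      | succ n hn ih =>
        rw [sum_Ioc_succ_top (by omega)]
        have hn0 : (0 : ℝ) < n := by exact_mod_cast (by omega : 0 < n)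
        have h3 : 1 / (((n + 1 : ℕ) : ℝ)) ^ 2 ≤ 1 / (n : ℝ) - 1 / ((n + 1 : ℕ) : ℝ) := by
          push_cast
          rw [div_sub_div _ _ (by positivity) (by positivity), div_le_div_iff₀ (by positivity) (by positivity)]
          nlinarith
        linarith
    have h3 := h2 z h.le
    have : (0 : ℝ) ≤ 1 / z := by positivity
    linarith

lemma prod_sq_le (w z : ℕ) (hw : 1 ≤ w) (K : ℝ) (hK : 0 ≤ K) :
    ∏ p ∈ PP w z, (1 + K / (p : ℝ) ^ 2) ≤ Real.exp (K / w) := by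
  have h1 : ∏ p ∈ PP w z, (1 + K / (p : ℝ) ^ 2) ≤ ∏ p ∈ PP w z, Real.exp (K * (1 / (p : ℝ) ^ 2)) := by
    apply prod_le_prod
    · intro p _; positivity
    · intro p _
      have := Real.add_one_le_exp (K * (1 / (p : ℝ) ^ 2))
      have e : K / (p : ℝ) ^ 2 = K * (1 / (p : ℝ) ^ 2) := by ring
      rw [e]; linarith
  refine h1.trans ?_
  rw [← Real.exp_sum, ← mul_sum]
  apply Real.exp_le_exp.2
  have := mul_le_mul_of_nonneg_left (sum_inv_sq_le w z hw) hK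
  refine this.trans (le_of_eq ?_)
  ring

lemma prod_one_le (w z : ℕ) (M : ℕ) :
    ∏ p ∈ PP w z, (1 + (M : ℝ) / (p : ℝ)) ≤ (Vz z)⁻¹ ^ M := by
  have h1 : ∏ p ∈ PP w z, (1 + (M : ℝ) / (p : ℝ)) ≤ ∏ p ∈ PP w z, ((1 - 1 / (p : ℝ))⁻¹) ^ M := by
    apply prod_le_prod
    · intro p _; positivity
    · intro p hp
      have hpp := (mem_PP.1 hp).1.2
      have hp0 : (0 : ℝ) < p := by exact_mod_cast hpp.pos
      have h2 : 1 + (M : ℝ) / p ≤ (1 + 1 / (p : ℝ)) ^ M := by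
        have := one_add_mul_le_pow (a := 1 / (p : ℝ)) (by have : (0 : ℝ) ≤ 1 / (p : ℝ) := by positivity
                                                          linarith) M
        refine le_trans (le_of_eq ?_) this
        ring
      refine h2.trans ?_
      apply pow_le_pow_left₀ (by positivity)
      have h3 := one_sub_pos hpp
      rw [le_inv_comm₀ (by positivity) h3, inv_eq_one_div, le_div_iff₀ (by positivity)]
      have h4 : (1 - 1 / (p : ℝ)) * (1 + 1 / (p : ℝ)) = 1 - (1 / (p : ℝ)) ^ 2 := by ring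
      rw [h4]
      have : 0 ≤ (1 / (p : ℝ)) ^ 2 := by positivity
      linarith
  refine h1.trans ?_
  rw [prod_pow]
  apply pow_le_pow_left₀
  · apply prod_nonneg
    intro p hp
    exact (inv_pos.2 (one_sub_pos (mem_PP.1 hp).1.2)).le
  · unfold Vz
    rw [← prod_inv_distrib, ← prod_filter_mul_prod_filter_not (pz z) (fun p => w < p)]
    have h2 : ∀ p ∈ pz z, (1 : ℝ) ≤ (1 - 1 / (p : ℝ))⁻¹ := by
      intro p hp
      have h3 := one_sub_pos (mem_pz.1 hp).2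
      rw [one_le_inv₀ h3]
      have : (0 : ℝ) ≤ 1 / (p : ℝ) := by positivity
      linarith
    have h4 : (1 : ℝ) ≤ ∏ p ∈ (pz z).filter (fun p => ¬ w < p), (1 - 1 / (p : ℝ))⁻¹ := by
      calc (1 : ℝ) = ∏ _p ∈ (pz z).filter (fun p => ¬ w < p), (1 : ℝ) := by rw [prod_const_one]
        _ ≤ _ := prod_le_prod (fun _ _ => zero_le_one) (fun p hp => h2 p (mem_filter.1 hp).1)
    have h5 : (0 : ℝ) ≤ ∏ p ∈ (pz z).filter (fun p => w < p), (1 - 1 / (p : ℝ))⁻¹ :=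
      prod_nonneg fun p hp => zero_le_one.trans (h2 p (mem_filter.1 hp).1)
    unfold PP
    exact le_mul_of_one_le_right h5 h4

end Pool.Agent.U746.AS
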