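import Pool.Agent.U746.AS.Var

/-! The first moment of the difference between the primes and the sieve model of a fixed level, over the
shifts, with arbitrary weights. -/

set_option autoImplicit false

namespace Pool.Agent.U746.AS
open Finset Polynomial
open Pool.Agent.H373R2.T7

lemma w_choice' (k K M : ℕ) (ε : ℝ) (hε : 0 < ε) : ∃ w0 : ℕ, 3 ≤ w0 ∧ ∀ w : ℕ, w0 ≤ w →
    ((Vz w)⁻¹ ^ 2) ^ k * (Real.exp (K / w) - 1) ≤ ε * (Vz w ^ 2) ^ M := by
  obtain ⟨w0, h3, h0⟩ := w_choice (k + M) K ε hε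
  refine ⟨w0, h3, fun w hw => ?_⟩
  have h1 := h0 w hw
  have hV := Vz_pos w
  have h2 : ((Vz w)⁻¹ ^ 2) ^ k * (Real.exp (K / w) - 1) =
      (((Vz w)⁻¹ ^ 2) ^ (k + M) * (Real.exp (K / w) - 1)) * (Vz w ^ 2) ^ M := by
    have e : ((Vz w)⁻¹ ^ 2) ^ M * (Vz w ^ 2) ^ M = 1 := by
      rw [← mul_pow, ← mul_pow, inv_mul_cancel₀ hV.ne', one_pow, one_pow]
    calc ((Vz w)⁻¹ ^ 2) ^ k * (Real.exp (K / w) - 1) =
        (((Vz w)⁻¹ ^ 2) ^ k * (Real.exp (K / w) - 1)) * (((Vz w)⁻¹ ^ 2) ^ M * (Vz w ^ 2) ^ M) := by rw [e, mul_one]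
      _ = _ := by rw [pow_add]; ring
  rw [h2]
  exact mul_le_mul_of_nonneg_right h1 (by positivity)

lemma Vz_le_one (z : ℕ) : Vz z ≤ 1 := by
  unfold Vz
  apply prod_le_one
  · intro p hp
    exact (one_sub_pos (mem_pz.1 hp).2).le
  · intro p _
    have : (0 : ℝ) ≤ 1 / (p : ℝ) := by positivity
    linarith

lemma lamzI_eq (z : ℕ) (m : ℤ) (hm : 1 ≤ m) : lamzI z m = LL z m := by
  unfold lamzI lamz LL
  rw [if_pos hm]
  have h : ∀ p : ℕ, p ∣ m.toNat ↔ (p : ℤ) ∣ m := by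
    intro p
    have : ((m.toNat : ℕ) : ℤ) = m := Int.toNat_of_nonneg (by omega)
    rw [← Int.natCast_dvd_natCast, this]
  simp only [h]

lemma lamzI_nonneg (z : ℕ) (m : ℤ) : 0 ≤ lamzI z m := by
  unfold lamzI lamz
  split_ifs
  · exact (inv_pos.2 (Vz_pos z)).le
  · exact le_rfl
  · exact le_rfl

lemma lamzI_le (z : ℕ) (m : ℤ) : lamzI z m ≤ (Vz z)⁻¹ := by
  have := (inv_pos.2 (Vz_pos z)).le
  unfold lamzI lamz
  split_ifs
  · exact le_rfl
  · exact this
  · exact this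

lemma PL_nonneg {k : ℕ} (F : Fin k → ℤ[X]) (z : ℕ) (a : Fin k → ℕ) (n : ℕ) : 0 ≤ PL F z a n :=
  prod_nonneg fun _ _ => LL_nonneg _ _

lemma PL_le {k : ℕ} (F : Fin k → ℤ[X]) (z : ℕ) (a : Fin k → ℕ) (n : ℕ) : PL F z a n ≤ (Vz z)⁻¹ ^ k := by
  unfold PL
  calc ∏ i, LL z ((a i : ℤ) + (F i).eval (n : ℤ)) ≤ ∏ _i : Fin k, (Vz z)⁻¹ :=
        prod_le_prod (fun _ _ => LL_nonneg _ _) (fun _ _ => LL_le _ _)
    _ = _ := by rw [prod_const, card_univ, Fintype.card_fin]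

/-- the primes -/
noncomputable def PP1 {k : ℕ} (F : Fin k → ℤ[X]) (a : Fin k → ℕ) (n : ℕ) : ℝ :=
  ∏ i, lamP ((a i : ℤ) + (F i).eval (n : ℤ))

set_option maxHeartbeats 1000000 in
open Classical in
theorem l1 {k : ℕ} (F : Fin k → ℤ[X]) (hd : ∀ i, 1 ≤ (F i).natDegree) (hl : ∀ i, 0 < (F i).leadingCoeff)
    (B : ℕ) (hB : 1 ≤ B) (ε : ℝ) (hε : 0 < ε) (w : ℕ) (hw3 : 3 ≤ w)
    (hwl : ∀ p : ℕ, w < p → ∀ i, ¬ (p : ℤ) ∣ (F i).leadingCoeff)
    (u1 : ((Vz w)⁻¹ ^ 2) ^ k * (Real.exp (((3 ^ k * Dg F : ℕ) : ℝ) / w) - 1) ≤ ε ^ 2 / 64) : ∃ x0 : ℕ, ∀ x : ℕ, x0 ≤ x →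
    ∀ A : Fin k → ℕ, (∀ i, A i ≤ B * x ^ (F i).natDegree ∧ x ^ (F i).natDegree ≤ B * A i) →
    ∀ G : ℕ → ℝ, (∀ n, 0 ≤ G n ∧ G n ≤ 1) →
    ∑ a ∈ Fintype.piFinset (fun i => Icc 1 (A i)), |∑ n ∈ Icc 1 x, G n * (PP1 F a n - PL F w a n)| ≤
      ε * x * ∏ i, (A i : ℝ) := by
  obtain ⟨B0, hB0⟩ := sys_diffP F hd hl (fun _ => 1) (fun _ => Or.inl rfl) B hB 1
  set E := B0 + 2 with hE
  obtain ⟨N1, h1⟩ := hB0 E
  obtain ⟨N2, h2⟩ := var F hd hl B hB (ε ^ 2 / 16) (by positivity) w hw3 hwl (by linarith) E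
  obtain ⟨N3, h3⟩ := ev_L' (w + 2 + 4 / ε)
  obtain ⟨N4, h4⟩ := Vz_inv_small E
  have hn : ∀ i, ∃ n0 : ℕ, ∀ n : ℕ, n0 ≤ n → 0 ≤ (F i).eval (n : ℤ) := fun i =>
    Pool.Agent.TH882.PA.pos (F i) (hd i) (hl i) 0
  choose n0 hn0 using hn
  set n1 : ℕ := univ.sup n0 with hn1
  obtain ⟨N5, h5⟩ := ev_log' k (n1 * 4 / ε)
  refine ⟨max (max N1 N2) (max (max N3 N4) (max N5 3)), fun x hx A hA G hG => ?_⟩
  have b1 : N1 ≤ x := le_trans (le_trans (le_max_left _ _) (le_max_left _ _)) hx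
  have b2 : N2 ≤ x := le_trans (le_trans (le_max_right _ _) (le_max_left _ _)) hx
  have b3 : N3 ≤ x := le_trans (le_trans (le_trans (le_max_left _ _) (le_max_left _ _)) (le_max_right _ _)) hx
  have b4 : N4 ≤ x := le_trans (le_trans (le_trans (le_max_right _ _) (le_max_left _ _)) (le_max_right _ _)) hx
  have b5 : N5 ≤ x := le_trans (le_trans (le_trans (le_max_left _ _) (le_max_right _ _)) (le_max_right _ _)) hx
  have b6 : 3 ≤ x := le_trans (le_trans (le_trans (le_max_right _ _) (le_max_right _ _)) (le_max_right _ _)) hx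
  have hL := h3 x b3
  have h5' := h5 x b5
  set L := Real.log x with hLd
  have hx0 : (0 : ℝ) < x := by exact_mod_cast (by omega : 0 < x)
  have hw0 : (3 : ℝ) ≤ w := by exact_mod_cast hw3
  have q1 : (0 : ℝ) < 4 / ε := by positivity
  have hL5 : 5 ≤ L := by linarith
  have hL0 : 0 < L := by linarith
  have hL1 : 1 ≤ L := by linarith
  set z : ℕ := ⌈L ^ (B0 + 1)⌉₊ with hz
  have hz1 : L ^ (B0 + 1) ≤ z := Nat.le_ceil _
  have hLp : L ≤ L ^ (B0 + 1) := le_self_pow₀ hL1 (by omega)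
  have hz2 : (z : ℝ) ≤ L ^ E := by
    have h6 := (Nat.ceil_lt_add_one (show 0 ≤ L ^ (B0 + 1) by positivity)).le
    calc (z : ℝ) ≤ L ^ (B0 + 1) + 1 := h6
      _ ≤ L ^ (B0 + 1) * L := by nlinarith
      _ = L ^ E := by rw [hE]; ring
  have hwz : w ≤ z := by
    have : (w : ℝ) ≤ z := by linarith
    exact_mod_cast this
  have hzB : L ^ B0 ≤ z := (pow_le_pow_right₀ hL1 (by omega)).trans hz1
  have hVz := h4 x b4 z (by omega) hz2
  have hVz0 := Vz_pos z
  set PA : ℝ := ∏ i, (A i : ℝ) with hPA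
  have hPA0 : 0 ≤ PA := prod_nonneg fun i _ => Nat.cast_nonneg _
  set box := Fintype.piFinset (fun i => Icc 1 (A i)) with hbox
  have hcard : (box.card : ℝ) = PA := by
    rw [hbox, Fintype.card_piFinset, hPA]
    push_cast
    apply prod_congr rfl
    intro i _
    simp
  -- first part
  have c1 := h1 x b1 A hA z hzB hz2 G (fun n _ => by
    rw [abs_of_nonneg (hG n).1]
    linarith [(hG n).2])
  -- third part
  have c3 := h2 x b2 A hA z hwz hz2 G hG
  have c3' : ∑ a ∈ box, |∑ n ∈ Icc 1 x, G n * (PL F z a n - PL F w a n)| ≤ ε / 4 * x * PA := by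
    have h6 := sq_sum_le_card_mul_sum_sq (s := box) (f := fun a => |∑ n ∈ Icc 1 x, G n * (PL F z a n - PL F w a n)|)
    simp only [sq_abs] at h6
    have h7 : (∑ a ∈ box, |∑ n ∈ Icc 1 x, G n * (PL F z a n - PL F w a n)|) ^ 2 ≤ (ε / 4 * x * PA) ^ 2 := by
      refine h6.trans ?_
      rw [hcard]
      calc PA * _ ≤ PA * (ε ^ 2 / 16 * (x : ℝ) ^ 2 * PA) := mul_le_mul_of_nonneg_left c3 hPA0
        _ = _ := by ring
    exact (abs_le_of_sq_le_sq' h7 (by positivity)).2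
  -- second part
  have c2 : ∀ a ∈ box, |∑ n ∈ Icc 1 x, G n * (∏ i, lamzI z (vl F (fun _ => 1) a i n) - PL F z a n)| ≤ ε / 4 * x := by
    intro a ha
    rw [hbox, Fintype.mem_piFinset] at ha
    have h6 : ∀ n ∈ Icc 1 x, |G n * (∏ i, lamzI z (vl F (fun _ => 1) a i n) - PL F z a n)| ≤
        (if n < n1 then L ^ k else 0) := by
      intro n _
      rw [abs_mul, abs_of_nonneg (hG n).1]
      split_ifs with hn
      · have h7 : |∏ i, lamzI z (vl F (fun _ => 1) a i n) - PL F z a n| ≤ L ^ k := by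
          have h8 : ∏ i, lamzI z (vl F (fun _ => 1) a i n) ≤ L ^ k := by
            calc ∏ i, lamzI z (vl F (fun _ => 1) a i n) ≤ ∏ _i : Fin k, L :=
                  prod_le_prod (fun _ _ => lamzI_nonneg _ _) (fun _ _ => (lamzI_le _ _).trans hVz)
              _ = _ := by rw [prod_const, card_univ, Fintype.card_fin]
          have h9 : 0 ≤ ∏ i, lamzI z (vl F (fun _ => 1) a i n) := prod_nonneg fun _ _ => lamzI_nonneg _ _
          have h10 := PL_nonneg F z a n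
          have h11 := (PL_le F z a n).trans (pow_le_pow_left₀ (inv_pos.2 hVz0).le hVz k)
          rw [abs_le]
          constructor <;> linarith
        calc G n * |∏ i, lamzI z (vl F (fun _ => 1) a i n) - PL F z a n| ≤ 1 * L ^ k :=
              mul_le_mul (hG n).2 h7 (abs_nonneg _) zero_le_one
          _ = _ := one_mul _
      · have h7 : ∏ i, lamzI z (vl F (fun _ => 1) a i n) = PL F z a n := by
          unfold PL
          apply prod_congr rfl
          intro i _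
          have h8 : n0 i ≤ n1 := le_sup (f := n0) (mem_univ i)
          have h9 := hn0 i n (by omega)
          have h10 := mem_Icc.1 (ha i)
          have h11 : vl F (fun _ => 1) a i n = (a i : ℤ) + (F i).eval (n : ℤ) := by
            unfold vl
            ring
          rw [h11]
          exact lamzI_eq z _ (by omega)
        rw [h7, sub_self, abs_zero, mul_zero]
    refine (abs_sum_le_sum_abs _ _).trans ((sum_le_sum h6).trans ?_)
    rw [← sum_filter, sum_const, nsmul_eq_mul]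
    have h7 : (((Icc 1 x).filter (fun n => n < n1)).card : ℝ) ≤ n1 := by
      have : (Icc 1 x).filter (fun n => n < n1) ⊆ range n1 := by
        intro n hn
        rw [mem_filter] at hn
        exact mem_range.2 hn.2
      exact_mod_cast (card_le_card this).trans (by simp)
    have h8 : √(x : ℝ) ≤ x := by
      have : (1 : ℝ) ≤ x := by exact_mod_cast (by omega : 1 ≤ x)
      rw [Real.sqrt_le_left (by positivity)]; nlinarith
    calc (((Icc 1 x).filter (fun n => n < n1)).card : ℝ) * L ^ k ≤ n1 * L ^ k :=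
          mul_le_mul_of_nonneg_right h7 (by positivity)
      _ = ε / 4 * (n1 * 4 / ε * L ^ k) := by field_simp
      _ ≤ ε / 4 * x := mul_le_mul_of_nonneg_left (h5'.trans h8) (by positivity)
  have hpt : ∀ a ∈ box, |∑ n ∈ Icc 1 x, G n * (PP1 F a n - PL F w a n)| ≤
      |∑ n ∈ Icc 1 x, G n * (∏ i, lamP (vl F (fun _ => 1) a i n) - ∏ i, lamzI z (vl F (fun _ => 1) a i n))| +
      ε / 4 * x + |∑ n ∈ Icc 1 x, G n * (PL F z a n - PL F w a n)| := by
    intro a ha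
    have h6 : ∑ n ∈ Icc 1 x, G n * (PP1 F a n - PL F w a n) =
        ∑ n ∈ Icc 1 x, G n * (∏ i, lamP (vl F (fun _ => 1) a i n) - ∏ i, lamzI z (vl F (fun _ => 1) a i n)) +
        ∑ n ∈ Icc 1 x, G n * (∏ i, lamzI z (vl F (fun _ => 1) a i n) - PL F z a n) +
        ∑ n ∈ Icc 1 x, G n * (PL F z a n - PL F w a n) := by
      rw [← sum_add_distrib, ← sum_add_distrib]
      apply sum_congr rfl
      intro n _
      have h7 : PP1 F a n = ∏ i, lamP (vl F (fun _ => 1) a i n) := by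
        unfold PP1 vl
        apply prod_congr rfl
        intro i _
        rw [one_mul]
      rw [h7]
      ring
    rw [h6]
    refine (abs_add_le _ _).trans (add_le_add_left ?_ _)
    exact (abs_add_le _ _).trans (add_le_add_right (c2 a ha) _)
  refine (sum_le_sum hpt).trans ?_
  rw [sum_add_distrib, sum_add_distrib, sum_const, nsmul_eq_mul, hcard]
  have c1' : x * (∏ i, (A i : ℝ)) / L ^ 1 ≤ ε / 4 * x * PA := by
    rw [pow_one, div_le_iff₀ hL0, ← hPA]
    have h6 : 4 / ε ≤ L := by linarith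
    rw [div_le_iff₀ hε] at h6
    have h7 : 0 ≤ (x : ℝ) * PA := by positivity
    nlinarith
  have := c1.trans c1'
  have h8 : 0 ≤ ε * x * PA := by positivity
  nlinarith

end Pool.Agent.U746.AS
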