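import Pool.Agent.U746.AS.L1

/-! Prime values of systems of polynomials at the elements of arbitrary sets, for almost all constant terms. -/

set_option autoImplicit false

namespace Pool.Agent.U746.AS
open Finset Polynomial
open Pool.Agent.H373R2.T7

open Classical in
/-- the number of `n ≤ y` in `S` with all values prime -/
noncomputable def NN {k : ℕ} (F : Fin k → ℤ[X]) (a : Fin k → ℕ) (S : Set ℕ) (y : ℕ) : ℕ :=
  ((Icc 1 y).filter (fun n : ℕ => n ∈ S ∧ ∀ i, ((a i : ℤ) + (F i).eval (n : ℤ)).toNat.Prime)).card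

open Classical in
/-- the number of `n ≤ y` in `S` with all values free of prime factors up to `w` -/
noncomputable def MM {k : ℕ} (F : Fin k → ℤ[X]) (a : Fin k → ℕ) (S : Set ℕ) (w y : ℕ) : ℕ :=
  ((Icc 1 y).filter (fun n : ℕ => n ∈ S ∧ ∀ i, ∀ p ∈ pz w, ¬ (p : ℤ) ∣ (a i : ℤ) + (F i).eval (n : ℤ))).card

lemma NN_mono {k : ℕ} (F : Fin k → ℤ[X]) (a : Fin k → ℕ) (S : Set ℕ) {y y' : ℕ} (h : y ≤ y') :
    NN F a S y ≤ NN F a S y' := by
  classical
  unfold NN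
  apply card_le_card
  apply filter_subset_filter
  exact Icc_subset_Icc_right h

lemma MM_mono {k : ℕ} (F : Fin k → ℤ[X]) (a : Fin k → ℕ) (S : Set ℕ) (w : ℕ) {y y' : ℕ} (h : y ≤ y') :
    MM F a S w y ≤ MM F a S w y' := by
  classical
  unfold MM
  apply card_le_card
  apply filter_subset_filter
  exact Icc_subset_Icc_right h

lemma MM_diff {k : ℕ} (F : Fin k → ℤ[X]) (a : Fin k → ℕ) (S : Set ℕ) (w : ℕ) {y y' : ℕ} (h : y ≤ y') :
    MM F a S w y' ≤ MM F a S w y + (y' - y) := by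
  classical
  unfold MM
  have h1 : (Icc 1 y').filter (fun n : ℕ => n ∈ S ∧ ∀ i, ∀ p ∈ pz w, ¬ (p : ℤ) ∣ (a i : ℤ) + (F i).eval (n : ℤ)) ⊆
      (Icc 1 y).filter (fun n : ℕ => n ∈ S ∧ ∀ i, ∀ p ∈ pz w, ¬ (p : ℤ) ∣ (a i : ℤ) + (F i).eval (n : ℤ)) ∪ Ioc y y' := by
    intro n hn
    rw [mem_filter, mem_Icc] at hn
    rw [mem_union, mem_filter, mem_Icc, mem_Ioc]
    by_cases hny : n ≤ y
    · exact Or.inl ⟨⟨hn.1.1, hny⟩, hn.2⟩
    · exact Or.inr ⟨by omega, hn.1.2⟩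
  refine (card_le_card h1).trans ((card_union_le _ _).trans ?_)
  rw [Nat.card_Ioc]

open Classical in
lemma MM_le {k : ℕ} (F : Fin k → ℤ[X]) (a : Fin k → ℕ) (S : Set ℕ) (w y : ℕ) : MM F a S w y ≤ y := by
  unfold MM
  refine (card_filter_le _ _).trans ?_
  simp

lemma low_bd (g : ℤ[X]) (hd : 1 ≤ g.natDegree) (hl : 0 < g.leadingCoeff) :
    ∃ c0 : ℕ, ∀ n : ℕ, -(c0 : ℤ) ≤ g.eval (n : ℤ) := by
  obtain ⟨n0, h0⟩ := Pool.Agent.TH882.PA.pos g hd hl 0
  refine ⟨∑ n ∈ range n0, (g.eval (n : ℤ)).natAbs, fun n => ?_⟩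
  rcases le_or_gt n0 n with h | h
  · have := h0 n h
    have h2 : (0 : ℤ) ≤ ((∑ n ∈ range n0, (g.eval (n : ℤ)).natAbs : ℕ) : ℤ) := by positivity
    omega
  · have h1 : (g.eval (n : ℤ)).natAbs ≤ ∑ n ∈ range n0, (g.eval (n : ℤ)).natAbs :=
      single_le_sum (f := fun n : ℕ => (g.eval (n : ℤ)).natAbs) (fun _ _ => Nat.zero_le _) (mem_range.2 h)
    omega

/-- the logarithms of the values -/
lemma log_val (g : ℤ[X]) (hd : 1 ≤ g.natDegree) (hl : 0 < g.leadingCoeff) (B : ℕ) (hB : 1 ≤ B) (η : ℝ) (hη : 0 < η) :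
    ∃ C : ℝ, 0 ≤ C ∧ ∃ x0 : ℕ, ∀ x : ℕ, x0 ≤ x → ∀ A : ℕ, A ≤ B * x ^ g.natDegree → x ^ g.natDegree ≤ B * A →
    ∀ a : ℕ, a ≤ A → η * A < a → ∀ n : ℕ, 1 ≤ n → n ≤ x → 1 ≤ (a : ℤ) + g.eval (n : ℤ) →
    |Real.log ((((a : ℤ) + g.eval (n : ℤ)).toNat : ℕ) : ℝ) - g.natDegree * Real.log x| ≤ C := by
  obtain ⟨c0, hc0⟩ := low_bd g hd hl
  set d := g.natDegree with hdd
  set C1 : ℝ := (B : ℝ) + cf g with hC1
  have hBr : (1 : ℝ) ≤ B := by exact_mod_cast hB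
  have hcf : (0 : ℝ) ≤ cf g := Nat.cast_nonneg _
  refine ⟨|Real.log C1| + |Real.log (η / (2 * B))|, by positivity, ⌈2 * B * c0 / η⌉₊ + 2, ?_⟩
  intro x hx A hA1 hA2 a ha1 ha2 n hn1 hnx hv
  have hxc : 2 * B * c0 / η ≤ x := by
    have h1 : ⌈2 * (B : ℝ) * c0 / η⌉₊ ≤ x := by omega
    exact (Nat.le_ceil _).trans (by exact_mod_cast h1)
  have hx2 : 2 ≤ x := by omega
  have hx0 : (0 : ℝ) < x := by exact_mod_cast (by omega : 0 < x)
  have hx1 : (1 : ℝ) ≤ x := by exact_mod_cast (by omega : 1 ≤ x)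
  have hxd : (x : ℝ) ≤ (x : ℝ) ^ d := le_self_pow₀ hx1 (by omega)
  have hval : ((((a : ℤ) + g.eval (n : ℤ)).toNat : ℕ) : ℝ) = (a : ℝ) + ((g.eval (n : ℤ) : ℤ) : ℝ) := by
    have h1 : ((((a : ℤ) + g.eval (n : ℤ)).toNat : ℕ) : ℤ) = (a : ℤ) + g.eval (n : ℤ) := Int.toNat_of_nonneg (by omega)
    have h2 : (((((a : ℤ) + g.eval (n : ℤ)).toNat : ℕ) : ℤ) : ℝ) = (((a : ℤ) + g.eval (n : ℤ) : ℤ) : ℝ) := by rw [h1]
    push_cast at h2
    exact_mod_cast h2
  rw [hval]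
  have hup : (a : ℝ) + ((g.eval (n : ℤ) : ℤ) : ℝ) ≤ C1 * (x : ℝ) ^ d := by
    have h1 := (le_abs_self _).trans (abs_eval_le g n hn1)
    have h2 : ((g.eval (n : ℤ) : ℤ) : ℝ) ≤ (cf g : ℝ) * (n : ℝ) ^ d := by exact_mod_cast h1
    have h3 : (n : ℝ) ^ d ≤ (x : ℝ) ^ d := pow_le_pow_left₀ (by positivity) (by exact_mod_cast hnx) _
    have h4 : (a : ℝ) ≤ B * (x : ℝ) ^ d := by exact_mod_cast ha1.trans hA1
    have h5 := mul_le_mul_of_nonneg_left h3 hcf
    rw [hC1]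
    linarith
  have hlow : η / (2 * B) * (x : ℝ) ^ d ≤ (a : ℝ) + ((g.eval (n : ℤ) : ℤ) : ℝ) := by
    have h1 : -(c0 : ℝ) ≤ ((g.eval (n : ℤ) : ℤ) : ℝ) := by exact_mod_cast hc0 n
    have h2 : (x : ℝ) ^ d ≤ B * A := by exact_mod_cast hA2
    have h3 : η / B * (x : ℝ) ^ d ≤ η * A := by
      rw [div_mul_eq_mul_div, div_le_iff₀ (by linarith)]
      calc η * (x : ℝ) ^ d ≤ η * (B * A) := mul_le_mul_of_nonneg_left h2 hη.le
        _ = _ := by ring
    have h4 : (c0 : ℝ) ≤ η / (2 * B) * (x : ℝ) ^ d := by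
      rw [div_le_iff₀ hη] at hxc
      rw [div_mul_eq_mul_div, le_div_iff₀ (by linarith)]
      have : η * x ≤ η * (x : ℝ) ^ d := mul_le_mul_of_nonneg_left hxd hη.le
      linarith
    have h5 : η / B * (x : ℝ) ^ d = 2 * (η / (2 * B) * (x : ℝ) ^ d) := by field_simp
    linarith
  have hC1p : 0 < C1 := by rw [hC1]; linarith
  have hη2 : 0 < η / (2 * B) := by positivity
  have hpos : 0 < (a : ℝ) + ((g.eval (n : ℤ) : ℤ) : ℝ) := lt_of_lt_of_le (by positivity) hlow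
  have l1 := Real.log_le_log hpos hup
  have l2 := Real.log_le_log (by positivity) hlow
  rw [Real.log_mul hC1p.ne' (by positivity), Real.log_pow] at l1
  rw [Real.log_mul hη2.ne' (by positivity), Real.log_pow] at l2
  have m1 := le_abs_self (Real.log C1)
  have m2 := neg_abs_le (Real.log (η / (2 * B)))
  have m3 := abs_nonneg (Real.log C1)
  have m4 := abs_nonneg (Real.log (η / (2 * B)))
  rw [abs_le]
  constructor <;> linarith

/-- few vectors have a small coordinate -/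
lemma small_coord {k : ℕ} (A : Fin k → ℕ) (η : ℝ) (hη : 0 ≤ η) :
    (((Fintype.piFinset (fun i => Icc 1 (A i))).filter (fun a => ∃ i, ((a i : ℕ) : ℝ) ≤ η * A i)).card : ℝ) ≤
      k * η * ∏ i, (A i : ℝ) := by
  classical
  have h1 : (Fintype.piFinset (fun i => Icc 1 (A i))).filter (fun a => ∃ i, ((a i : ℕ) : ℝ) ≤ η * A i) ⊆
      univ.biUnion (fun i : Fin k => Fintype.piFinset (fun j => (Icc 1 (A j)).filter (fun b : ℕ => j = i → (b : ℝ) ≤ η * A j))) := by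
    intro a ha
    rw [mem_filter, Fintype.mem_piFinset] at ha
    obtain ⟨h2, i, hi⟩ := ha
    rw [mem_biUnion]
    refine ⟨i, mem_univ _, ?_⟩
    rw [Fintype.mem_piFinset]
    intro j
    rw [mem_filter]
    exact ⟨h2 j, fun h => by rw [h]; exact hi⟩
  have h2 : ∀ i : Fin k, ((Fintype.piFinset (fun j => (Icc 1 (A j)).filter (fun b : ℕ => j = i → (b : ℝ) ≤ η * A j))).card : ℝ) ≤
      η * ∏ i, (A i : ℝ) := by
    intro i
    rw [Fintype.card_piFinset]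
    push_cast
    have h3 : ∀ j ∈ (univ : Finset (Fin k)), ((((Icc 1 (A j)).filter (fun b : ℕ => j = i → (b : ℝ) ≤ η * A j)).card : ℕ) : ℝ) ≤
        (A j : ℝ) * (if j = i then η else 1) := by
      intro j _
      split_ifs with hj
      · have h4 : (Icc 1 (A j)).filter (fun b : ℕ => j = i → (b : ℝ) ≤ η * A j) ⊆ Icc 1 ⌊η * A j⌋₊ := by
          intro b hb
          rw [mem_filter, mem_Icc] at hb
          rw [mem_Icc]
          exact ⟨hb.1.1, Nat.le_floor (hb.2 hj)⟩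
        have h5 := card_le_card h4
        rw [Nat.card_Icc, Nat.add_sub_cancel] at h5
        calc _ ≤ ((⌊η * A j⌋₊ : ℕ) : ℝ) := by exact_mod_cast h5
          _ ≤ η * A j := Nat.floor_le (by positivity)
          _ = _ := by ring
      · rw [mul_one]
        have := card_filter_le (Icc 1 (A j)) (fun b : ℕ => j = i → (b : ℝ) ≤ η * A j)
        rw [Nat.card_Icc, Nat.add_sub_cancel] at this
        exact_mod_cast this
    refine (prod_le_prod (fun _ _ => Nat.cast_nonneg _) h3).trans (le_of_eq ?_)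
    rw [prod_mul_distrib, prod_ite_eq' univ i (fun _ => η)]
    rw [if_pos (mem_univ i)]
    ring
  calc _ ≤ ((univ.biUnion (fun i : Fin k => Fintype.piFinset (fun j => (Icc 1 (A j)).filter (fun b : ℕ => j = i → (b : ℝ) ≤ η * A j)))).card : ℝ) := by
        exact_mod_cast card_le_card h1
    _ ≤ ((∑ i : Fin k, (Fintype.piFinset (fun j => (Icc 1 (A j)).filter (fun b : ℕ => j = i → (b : ℝ) ≤ η * A j))).card : ℕ) : ℝ) := by
        exact_mod_cast card_biUnion_le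
    _ ≤ ∑ _i : Fin k, η * ∏ i, (A i : ℝ) := by
        push_cast
        exact sum_le_sum fun i _ => h2 i
    _ = _ := by
        rw [sum_const, card_univ, Fintype.card_fin, nsmul_eq_mul]
        ring

end Pool.Agent.U746.AS
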