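import Pool.Agent.U746.AS.Main

/-! One vector of constant terms. -/

set_option autoImplicit false

namespace Pool.Agent.U746.AS
open Finset Polynomial
open Pool.Agent.H373R2.T7

/-- the product of the `d_i log x` -/
noncomputable def Lam {k : ℕ} (F : Fin k → ℤ[X]) (x : ℕ) : ℝ := ∏ i, ((F i).natDegree * Real.log x)

open Classical in
/-- the weight of a set -/
noncomputable def ind (S : Set ℕ) (y n : ℕ) : ℝ := if n ∈ S ∧ n ≤ y then 1 else 0

lemma ind_mem (S : Set ℕ) (y n : ℕ) : 0 ≤ ind S y n ∧ ind S y n ≤ 1 := by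
  unfold ind
  split_ifs <;> norm_num

lemma sum_PL {k : ℕ} (F : Fin k → ℤ[X]) (a : Fin k → ℕ) (S : Set ℕ) (w y x : ℕ) (hy : y ≤ x) :
    ∑ n ∈ Icc 1 x, ind S y n * PL F w a n = (Vz w)⁻¹ ^ k * MM F a S w y := by
  classical
  unfold MM
  rw [mul_comm, ← nsmul_eq_mul, ← sum_const, sum_filter]
  have e : Icc 1 y = (Icc 1 x).filter (fun n => n ≤ y) := by
    ext n
    rw [mem_filter, mem_Icc, mem_Icc]
    constructor <;> intro h <;> omega
  rw [e, sum_filter]
  apply sum_congr rfl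
  intro n _
  unfold ind PL LL
  by_cases hny : n ≤ y
  · by_cases hS : n ∈ S
    · rw [if_pos ⟨hS, hny⟩, if_pos hny, one_mul]
      by_cases h : ∀ i, ∀ p ∈ pz w, ¬ (p : ℤ) ∣ (a i : ℤ) + (F i).eval (n : ℤ)
      · rw [if_pos ⟨hS, h⟩]
        calc _ = ∏ _i : Fin k, (Vz w)⁻¹ := prod_congr rfl fun i _ => if_pos (h i)
          _ = _ := by rw [prod_const, card_univ, Fintype.card_fin]
      · rw [if_neg (fun h2 => h h2.2)]
        rw [not_forall] at h
        obtain ⟨i, hi⟩ := h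
        exact prod_eq_zero (mem_univ i) (if_neg hi)
    · rw [if_neg (fun h => hS h.1), if_pos hny, if_neg (fun h => hS h.1), zero_mul]
  · rw [if_neg (fun h => hny h.2), if_neg hny, zero_mul]

open Classical in
lemma sum_PP1 {k : ℕ} (F : Fin k → ℤ[X]) (a : Fin k → ℕ) (S : Set ℕ) (y x : ℕ) (hy : y ≤ x) (Λ θ : ℝ)
    (h : ∀ n : ℕ, 1 ≤ n → n ≤ x → (∀ i, ((a i : ℤ) + (F i).eval (n : ℤ)).toNat.Prime) → |PP1 F a n - Λ| ≤ θ * Λ) :
    |∑ n ∈ Icc 1 x, ind S y n * PP1 F a n - Λ * NN F a S y| ≤ θ * (Λ * NN F a S y) := by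
  unfold NN
  have e : Icc 1 y = (Icc 1 x).filter (fun n => n ≤ y) := by
    ext n
    rw [mem_filter, mem_Icc, mem_Icc]
    constructor <;> intro h <;> omega
  rw [e, filter_filter]
  set T := (Icc 1 x).filter (fun n : ℕ => n ≤ y ∧ n ∈ S ∧ ∀ i, ((a i : ℤ) + (F i).eval (n : ℤ)).toNat.Prime) with hT
  have h1 : ∑ n ∈ Icc 1 x, ind S y n * PP1 F a n = ∑ n ∈ T, PP1 F a n := by
    rw [hT, sum_filter]
    apply sum_congr rfl
    intro n _
    unfold ind
    by_cases hny : n ≤ y
    · by_cases hS : n ∈ S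
      · rw [if_pos ⟨hS, hny⟩, one_mul]
        by_cases hp : ∀ i, ((a i : ℤ) + (F i).eval (n : ℤ)).toNat.Prime
        · rw [if_pos ⟨hny, hS, hp⟩]
        · rw [if_neg (fun h => hp h.2.2)]
          rw [not_forall] at hp
          obtain ⟨i, hi⟩ := hp
          unfold PP1
          apply prod_eq_zero (mem_univ i)
          unfold lamP
          rw [if_neg hi]
      · rw [if_neg (fun h => hS h.1), if_neg (fun h => hS h.2.1), zero_mul]
    · rw [if_neg (fun h => hny h.2), if_neg (fun h => hny h.1), zero_mul]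
  have h2 : Λ * (T.card : ℝ) = ∑ _n ∈ T, Λ := by
    rw [sum_const, nsmul_eq_mul, mul_comm]
  rw [h1, h2, ← sum_sub_distrib, mul_sum]
  refine (abs_sum_le_sum_abs _ _).trans (sum_le_sum ?_)
  intro n hn
  rw [hT, mem_filter, mem_Icc] at hn
  exact h n hn.1.1 hn.1.2 hn.2.2.2

theorem good_pt {k : ℕ} (F : Fin k → ℤ[X]) (hd : ∀ i, 1 ≤ (F i).natDegree) (hl : ∀ i, 0 < (F i).leadingCoeff)
    (B : ℕ) (hB : 1 ≤ B) (η δ : ℝ) (hη : 0 < η) (hδ : 0 < δ) (hδ1 : δ ≤ 1) (w : ℕ) : ∃ x0 : ℕ, ∀ x : ℕ, x0 ≤ x →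
    ∀ A : Fin k → ℕ, (∀ i, A i ≤ B * x ^ (F i).natDegree ∧ x ^ (F i).natDegree ≤ B * A i) →
    ∀ a : Fin k → ℕ, (∀ i, a i ≤ A i ∧ η * A i < a i) → ∀ (S : Set ℕ) (y : ℕ), y ≤ x →
    |∑ n ∈ Icc 1 x, ind S y n * (PP1 F a n - PL F w a n)| ≤ δ * x →
    |Lam F x * NN F a S y - (Vz w)⁻¹ ^ k * MM F a S w y| ≤ 2 * δ * x := by
  have h0 := fun i => log_val (F i) (hd i) (hl i) B hB η hη
  choose C hC x1 hx1 using h0
  set C1 : ℝ := ∑ i, C i with hC1
  have hC1n : 0 ≤ C1 := sum_nonneg fun i _ => hC i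
  have hCi : ∀ i, C i ≤ C1 := fun i => single_le_sum (f := C) (fun j _ => hC j) (mem_univ i)
  set V : ℝ := (Vz w)⁻¹ ^ k with hV
  have hVz := Vz_pos w
  have hV1 : 1 ≤ V := one_le_pow₀ (by rw [one_le_inv₀ hVz]; exact Vz_le_one w)
  set θ : ℝ := δ / (2 * (V + 1)) with hθ
  have hθ0 : 0 < θ := by positivity
  have hθ1 : θ ≤ 1 / 2 := by
    rw [hθ, div_le_div_iff₀ (by positivity) (by norm_num)]
    nlinarith
  obtain ⟨N3, h3⟩ := ev_L' (C1 + 1 + k * 2 ^ k * C1 / θ)
  refine ⟨max (univ.sup x1) (max N3 3), fun x hx A hA a ha S y hyx hT => ?_⟩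
  have b1 : univ.sup x1 ≤ x := le_trans (le_max_left _ _) hx
  have b2 : N3 ≤ x := le_trans (le_trans (le_max_left _ _) (le_max_right _ _)) hx
  have b3 : 3 ≤ x := le_trans (le_trans (le_max_right _ _) (le_max_right _ _)) hx
  have hL := h3 x b2
  set L := Real.log x with hLd
  have hx0 : (0 : ℝ) < x := by exact_mod_cast (by omega : 0 < x)
  have q1 : (0 : ℝ) ≤ k * 2 ^ k * C1 / θ := by positivity
  have hL0 : 0 < L := by linarith
  have hLC : C1 / L ≤ 1 := by
    rw [div_le_one hL0]; linarith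
  have hΛ : 0 < Lam F x := by
    unfold Lam
    apply prod_pos
    intro i _
    have : (0 : ℝ) < (F i).natDegree := by exact_mod_cast hd i
    positivity
  have hpt : ∀ n : ℕ, 1 ≤ n → n ≤ x → (∀ i, ((a i : ℤ) + (F i).eval (n : ℤ)).toNat.Prime) →
      |PP1 F a n - Lam F x| ≤ θ * Lam F x := by
    intro n hn1 hnx hp
    have e1 : PP1 F a n = Lam F x * ∏ i, (Real.log ((((a i : ℤ) + (F i).eval (n : ℤ)).toNat : ℕ) : ℝ) / ((F i).natDegree * L)) := by
      unfold PP1 Lam
      rw [← prod_mul_distrib]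
      apply prod_congr rfl
      intro i _
      unfold lamP
      rw [if_pos (hp i), ← hLd]
      have : (0 : ℝ) < (F i).natDegree := by exact_mod_cast hd i
      field_simp
    have e2 : PP1 F a n - Lam F x = Lam F x *
        (∏ i, (Real.log ((((a i : ℤ) + (F i).eval (n : ℤ)).toNat : ℕ) : ℝ) / ((F i).natDegree * L)) - ∏ _i : Fin k, (1 : ℝ)) := by
      rw [e1, prod_const_one]; ring
    rw [e2, abs_mul, abs_of_pos hΛ, mul_comm]
    apply mul_le_mul_of_nonneg_right _ hΛ.le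
    have h4 := prod_diff (univ : Finset (Fin k)) (fun i => Real.log ((((a i : ℤ) + (F i).eval (n : ℤ)).toNat : ℕ) : ℝ) / ((F i).natDegree * L))
      (fun _ => 1) 1 (C1 / L) le_rfl (by positivity) hLC (fun i _ => by
        have hdi : (1 : ℝ) ≤ (F i).natDegree := by exact_mod_cast hd i
        have hx1i : x1 i ≤ x := (le_sup (f := x1) (mem_univ i)).trans b1
        have hv : 1 ≤ (a i : ℤ) + (F i).eval (n : ℤ) := by
          have h5 := (hp i).pos
          omega
        have h6 := hx1 i x hx1i (A i) (hA i).1 (hA i).2 (a i) (ha i).1 (ha i).2 n hn1 hnx hv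
        have e3 : Real.log ((((a i : ℤ) + (F i).eval (n : ℤ)).toNat : ℕ) : ℝ) / ((F i).natDegree * L) - 1 =
          (Real.log ((((a i : ℤ) + (F i).eval (n : ℤ)).toNat : ℕ) : ℝ) - (F i).natDegree * L) / ((F i).natDegree * L) := by
          field_simp
        rw [e3, abs_div, abs_of_pos (show 0 < ((F i).natDegree : ℝ) * L by positivity)]
        apply div_le_div₀ hC1n (h6.trans (hCi i)) hL0
        nlinarith) (fun i _ => ⟨zero_le_one, le_rfl⟩)
    rw [card_univ, Fintype.card_fin] at h4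
    refine h4.trans ?_
    have h5 : k * 2 ^ k * C1 / θ ≤ L := by linarith
    rw [div_le_iff₀ hθ0] at h5
    have h6 : (k : ℝ) * (1 + 1) ^ k * (C1 / L) = (k * 2 ^ k * C1) / L := by norm_num; ring
    rw [h6, div_le_iff₀ hL0]
    linarith
  have k1 := sum_PP1 F a S y x hyx (Lam F x) θ hpt
  have k2 := sum_PL F a S w y x hyx
  have k3 : ∑ n ∈ Icc 1 x, ind S y n * (PP1 F a n - PL F w a n) =
      ∑ n ∈ Icc 1 x, ind S y n * PP1 F a n - V * MM F a S w y := by
    rw [← k2, ← sum_sub_distrib]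
    apply sum_congr rfl
    intro n _
    ring
  rw [k3] at hT
  have hN0 : 0 ≤ Lam F x * NN F a S y := by positivity
  have hM : (MM F a S w y : ℝ) ≤ x := by exact_mod_cast (MM_le F a S w y).trans hyx
  have hVM : V * MM F a S w y ≤ V * x := mul_le_mul_of_nonneg_left hM (by linarith)
  have a1 := abs_le.1 hT
  have a2 := abs_le.1 k1
  have a3 : Lam F x * NN F a S y ≤ 2 * (V + 1) * x := by
    have : θ * (Lam F x * NN F a S y) ≤ 1 / 2 * (Lam F x * NN F a S y) := mul_le_mul_of_nonneg_right hθ1 hN0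
    have h7 : δ * x ≤ x := by nlinarith
    nlinarith
  have a4 : θ * (Lam F x * NN F a S y) ≤ δ * x := by
    calc θ * (Lam F x * NN F a S y) ≤ θ * (2 * (V + 1) * x) := mul_le_mul_of_nonneg_left a3 hθ0.le
      _ = δ * x := by rw [hθ]; field_simp
  rw [abs_le]
  constructor <;> linarith [a1.1, a1.2, a2.1, a2.2]

set_option maxHeartbeats 1000000 in
open Classical in
/-- **arbitrary sets**: the number of the elements `n` of `S` at which all values are prime is given by the number of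
those at which all values are free of prime factors `≤ w`, for almost all vectors of constant terms -/
theorem arb {k : ℕ} (F : Fin k → ℤ[X]) (hd : ∀ i, 1 ≤ (F i).natDegree) (hl : ∀ i, 0 < (F i).leadingCoeff)
    (B : ℕ) (hB : 1 ≤ B) (ε : ℝ) (hε : 0 < ε) : ∃ w0 : ℕ, 3 ≤ w0 ∧ ∀ w : ℕ, w0 ≤ w → ∃ x0 : ℕ, ∀ x : ℕ, x0 ≤ x →
    ∀ A : Fin k → ℕ, (∀ i, A i ≤ B * x ^ (F i).natDegree ∧ x ^ (F i).natDegree ≤ B * A i) →
    ∀ S : Set ℕ, (((Fintype.piFinset (fun i => Icc 1 (A i))).filter (fun a => ¬ ∀ y : ℕ, y ≤ x →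
      |Lam F x * NN F a S y - (Vz w)⁻¹ ^ k * MM F a S w y| ≤ ε * x)).card : ℝ) ≤ ε * ∏ i, (A i : ℝ) := by
  -- reduction to `ε ≤ 1`
  wlog hε1 : ε ≤ 1 with H
  · obtain ⟨w0, h3, h0⟩ := H F hd hl B hB 1 one_pos le_rfl
    push Not at hε1
    refine ⟨w0, h3, fun w hw => ?_⟩
    obtain ⟨x0, h1⟩ := h0 w hw
    refine ⟨x0, fun x hx A hA S => ?_⟩
    have h2 := h1 x hx A hA S
    have h4 : (0 : ℝ) ≤ ∏ i, (A i : ℝ) := prod_nonneg fun i _ => Nat.cast_nonneg _
    refine le_trans ?_ (h2.trans ?_)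
    · apply Nat.cast_le.2
      apply card_le_card
      intro a ha
      rw [mem_filter] at ha ⊢
      refine ⟨ha.1, fun h => ha.2 fun y hy => (h y hy).trans ?_⟩
      exact mul_le_mul_of_nonneg_right hε1.le (Nat.cast_nonneg _)
    · exact mul_le_mul_of_nonneg_right hε1.le h4
  set δ : ℝ := ε / 8 with hδ
  have hδ0 : 0 < δ := by positivity
  have hδ1 : δ ≤ 1 := by linarith
  set ε0 : ℝ := (δ ^ 2 * ε / 16) ^ 2 / 64 with hε0
  obtain ⟨w1, hw13, hw1⟩ := w_choice' k (3 ^ k * Dg F) k ε0 (by positivity)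
  set lc : ℕ := univ.sup (fun i => (F i).leadingCoeff.natAbs) with hlc
  refine ⟨max w1 lc, hw13.trans (le_max_left _ _), fun w hw => ?_⟩
  have hww1 : w1 ≤ w := (le_max_left _ _).trans hw
  have hw3 : 3 ≤ w := hw13.trans hww1
  have hwl : ∀ p : ℕ, w < p → ∀ i, ¬ (p : ℤ) ∣ (F i).leadingCoeff := by
    intro p hp i hdv
    have h1 : (F i).leadingCoeff.natAbs ≤ lc := le_sup (f := fun i => (F i).leadingCoeff.natAbs) (mem_univ i)
    have h2 := Int.le_of_dvd (hl i) hdv
    have h3 : lc ≤ w := (le_max_right _ _).trans hw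
    have := hl i
    omega
  set V : ℝ := (Vz w)⁻¹ ^ k with hV
  have hVz := Vz_pos w
  have hV1 : 1 ≤ V := one_le_pow₀ (by rw [one_le_inv₀ hVz]; exact Vz_le_one w)
  have hV0 : 0 < V := by linarith
  set ε1 : ℝ := δ ^ 2 * ε / (16 * V) with hε1d
  have hε10 : 0 < ε1 := by positivity
  set η : ℝ := ε / (4 * (k + 1)) with hη
  have hη0 : 0 < η := by positivity
  set J : ℕ := ⌈V / δ⌉₊ + 1 with hJ
  have hJ1 : V / δ ≤ J := by
    rw [hJ]; push_cast
    have := Nat.le_ceil (V / δ)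
    linarith
  have hJ2 : (J : ℝ) + 1 ≤ 4 * (V / δ) := by
    have h1 := (Nat.ceil_lt_add_one (show 0 ≤ V / δ by positivity)).le
    have h2 : 1 ≤ V / δ := by rw [le_div_iff₀ hδ0]; linarith
    rw [hJ]; push_cast
    linarith
  have hJ0 : 0 < J := by omega
  have hu := hw1 w hww1
  have hu1 : ((Vz w)⁻¹ ^ 2) ^ k * (Real.exp (((3 ^ k * Dg F : ℕ) : ℝ) / w) - 1) ≤ ε1 ^ 2 / 64 := by
    refine hu.trans (le_of_eq ?_)
    rw [hε0, hε1d, hV]
    have e : (Vz w ^ 2) ^ k = (((Vz w)⁻¹ ^ k) ^ 2)⁻¹ := by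
      rw [← pow_mul, ← pow_mul, mul_comm 2 k, inv_pow, inv_inv]
    rw [e]
    field_simp
  obtain ⟨N1, h1⟩ := l1 F hd hl B hB ε1 hε10 w hw3 hwl hu1
  obtain ⟨N2, h2⟩ := good_pt F hd hl B hB η δ hη0 hδ0 hδ1 w
  refine ⟨max (max N1 N2) (⌈V / δ⌉₊ + 3), fun x hx A hA S => ?_⟩
  have b1 : N1 ≤ x := le_trans (le_trans (le_max_left _ _) (le_max_left _ _)) hx
  have b2 : N2 ≤ x := le_trans (le_trans (le_max_right _ _) (le_max_left _ _)) hx
  have b3 : ⌈V / δ⌉₊ + 3 ≤ x := le_trans (le_max_right _ _) hx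
  have hx0 : (0 : ℝ) < x := by exact_mod_cast (by omega : 0 < x)
  have hVx : V ≤ δ * x := by
    have h4 : V / δ ≤ x := (Nat.le_ceil _).trans (by exact_mod_cast (by omega : ⌈V / δ⌉₊ ≤ x))
    rw [div_le_iff₀ hδ0] at h4
    linarith
  set PA : ℝ := ∏ i, (A i : ℝ) with hPA
  have hPA0 : 0 ≤ PA := prod_nonneg fun i _ => Nat.cast_nonneg _
  set box := Fintype.piFinset (fun i => Icc 1 (A i)) with hbox
  set T : ℕ → (Fin k → ℕ) → ℝ := fun j a => |∑ n ∈ Icc 1 x, ind S (j * x / J) n * (PP1 F a n - PL F w a n)| with hT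
  set Bad2 := box.filter (fun a => ∃ i, ((a i : ℕ) : ℝ) ≤ η * A i) with hBad2
  set Bad1 := (range (J + 1)).biUnion (fun j => box.filter (fun a => δ * x < T j a)) with hBad1
  have hsub : box.filter (fun a => ¬ ∀ y : ℕ, y ≤ x →
      |Lam F x * NN F a S y - V * MM F a S w y| ≤ ε * x) ⊆ Bad1 ∪ Bad2 := by
    intro a ha
    rw [mem_filter] at ha
    obtain ⟨habox, ha2⟩ := ha
    rw [mem_union]
    by_contra hcon
    push Not at hcon
    obtain ⟨hc1, hc2⟩ := hcon
    have hg : ∀ i, a i ≤ A i ∧ η * A i < a i := by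
      intro i
      refine ⟨(mem_Icc.1 ((Fintype.mem_piFinset.1 habox) i)).2, ?_⟩
      by_contra h
      push Not at h
      exact hc2 (mem_filter.2 ⟨habox, i, h⟩)
    have hTj : ∀ j ∈ range (J + 1), T j a ≤ δ * x := by
      intro j hj
      by_contra h
      push Not at h
      exact hc1 (mem_biUnion.2 ⟨j, hj, mem_filter.2 ⟨habox, h⟩⟩)
    have hgrid : ∀ j, j ≤ J → j * x / J ≤ x ∧
        |Lam F x * NN F a S (j * x / J) - V * MM F a S w (j * x / J)| ≤ 2 * δ * x := by
      intro j hj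
      have hle : j * x / J ≤ x := by
        rw [Nat.div_le_iff_le_mul_add_pred hJ0]
        nlinarith [Nat.mul_le_mul_right x hj]
      exact ⟨hle, h2 x b2 A hA a hg S _ hle (hTj j (mem_range.2 (by omega)))⟩
    apply ha2
    intro y hy
    have hΛ : 0 ≤ Lam F x := prod_nonneg fun i _ => by
      have : 0 ≤ Real.log (x : ℝ) := Real.log_natCast_nonneg _
      positivity
    rcases Nat.lt_or_ge y x with hyx | hyx
    · set j := y * J / x with hj
      have hxpos : 0 < x := by omega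
      have hjJ : j < J := by
        rw [hj, Nat.div_lt_iff_lt_mul hxpos]
        nlinarith
      have hlow : j * x / J ≤ y := by
        have h5 : j * x ≤ y * J := Nat.div_mul_le_self _ _
        calc j * x / J ≤ y * J / J := Nat.div_le_div_right h5
          _ = y := Nat.mul_div_cancel _ hJ0
      have hup : y ≤ (j + 1) * x / J := by
        rw [Nat.le_div_iff_mul_le hJ0]
        have h5 := Nat.lt_div_mul_add hxpos (a := y * J)
        rw [← hj] at h5
        nlinarith
      obtain ⟨-, g1⟩ := hgrid j hjJ.le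
      obtain ⟨-, g2⟩ := hgrid (j + 1) hjJ
      set y1 := j * x / J with hy1
      set y2 := (j + 1) * x / J with hy2
      have hgap : (y2 : ℝ) - y1 ≤ δ / V * x + 1 := by
        have h5 : (y2 : ℝ) ≤ ((j + 1 : ℕ) : ℝ) * x / J := by
          rw [hy2]
          have := @Nat.cast_div_le ℝ _ _ _ ((j + 1) * x) J
          push_cast at this ⊢
          exact this
        have h6 : ((j : ℕ) : ℝ) * x / J ≤ y1 + 1 := by
          have h7 := Nat.lt_div_mul_add hJ0 (a := j * x)
          rw [← hy1] at h7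
          rw [div_le_iff₀ (by exact_mod_cast hJ0)]
          have h8 : ((j * x : ℕ) : ℝ) ≤ ((y1 * J + J : ℕ) : ℝ) := by exact_mod_cast h7.le
          push_cast at h8
          linarith
        have hJr : (0 : ℝ) < J := by exact_mod_cast hJ0
        have h9 : (x : ℝ) / J ≤ δ / V * x := by
          rw [div_le_iff₀ hJr]
          rw [div_le_iff₀ hδ0] at hJ1
          calc (x : ℝ) = (1 / V) * V * x := by field_simp
            _ ≤ (1 / V) * (J * δ) * x := by gcongr
            _ = _ := by ring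
        have h10 : ((j + 1 : ℕ) : ℝ) * x / J = ((j : ℕ) : ℝ) * x / J + x / J := by
          push_cast; ring
        linarith
      have hMd := MM_diff F a S w (le_trans hlow hup)
      have hy12 : y1 ≤ y2 := le_trans hlow hup
      have hMd' : (MM F a S w y2 : ℝ) ≤ MM F a S w y1 + (y2 - y1) := by
        have : ((MM F a S w y2 : ℕ) : ℝ) ≤ ((MM F a S w y1 + (y2 - y1) : ℕ) : ℝ) := by exact_mod_cast hMd
        rw [Nat.cast_add, Nat.cast_sub hy12] at this
        exact this
      have m1 : (NN F a S y1 : ℝ) ≤ NN F a S y := by exact_mod_cast NN_mono F a S hlow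
      have m2 : (NN F a S y : ℝ) ≤ NN F a S y2 := by exact_mod_cast NN_mono F a S hup
      have m3 : (MM F a S w y1 : ℝ) ≤ MM F a S w y := by exact_mod_cast MM_mono F a S w hlow
      have m4 : (MM F a S w y : ℝ) ≤ MM F a S w y2 := by exact_mod_cast MM_mono F a S w hup
      have n1 := mul_le_mul_of_nonneg_left m1 hΛ
      have n2 := mul_le_mul_of_nonneg_left m2 hΛ
      have n3 := mul_le_mul_of_nonneg_left m3 hV0.le
      have n4 := mul_le_mul_of_nonneg_left m4 hV0.le
      have n5 : V * MM F a S w y2 ≤ V * MM F a S w y1 + 2 * δ * x := by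
        have h5 : V * (MM F a S w y1 + ((y2 : ℝ) - y1)) ≤ V * MM F a S w y1 + V * (δ / V * x + 1) := by
          rw [mul_add]
          have := mul_le_mul_of_nonneg_left hgap hV0.le
          linarith
        have h6 : V * (δ / V * x + 1) = δ * x + V := by field_simp
        have h7 := mul_le_mul_of_nonneg_left hMd' hV0.le
        linarith
      have g1' := abs_le.1 g1
      have g2' := abs_le.1 g2
      have hδx : 4 * δ * x ≤ ε * x := by
        have : 4 * δ ≤ ε := by rw [hδ]; linarith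
        exact mul_le_mul_of_nonneg_right this hx0.le
      rw [abs_le]
      constructor <;> linarith [g1'.1, g1'.2, g2'.1, g2'.2]
    · have hyx' : y = x := le_antisymm hy hyx
      have h5 : J * x / J = x := Nat.mul_div_cancel_left _ hJ0
      obtain ⟨-, g1⟩ := hgrid J le_rfl
      rw [h5] at g1
      rw [hyx']
      have : 2 * δ * x ≤ ε * x := by
        apply mul_le_mul_of_nonneg_right _ hx0.le
        rw [hδ]; linarith
      linarith
  have hc1 : (Bad1.card : ℝ) ≤ ε / 4 * PA := by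
    have h5 : ∀ j ∈ range (J + 1), ((box.filter (fun a => δ * x < T j a)).card : ℝ) ≤ ε1 / δ * PA := by
      intro j _
      have h6 := h1 x b1 A hA (ind S (j * x / J)) (fun n => ind_mem S _ n)
      have h7 : ((box.filter (fun a => δ * x < T j a)).card : ℝ) * (δ * x) ≤ ∑ a ∈ box, T j a := by
        calc ((box.filter (fun a => δ * x < T j a)).card : ℝ) * (δ * x) = ∑ _a ∈ box.filter (fun a => δ * x < T j a), δ * x := by
              rw [sum_const, nsmul_eq_mul]
          _ ≤ ∑ a ∈ box.filter (fun a => δ * x < T j a), T j a := sum_le_sum fun a ha => (mem_filter.1 ha).2.le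
          _ ≤ ∑ a ∈ box, T j a := sum_le_sum_of_subset_of_nonneg (filter_subset _ _) (fun _ _ _ => abs_nonneg _)
      have h8 := h7.trans h6
      rw [← le_div_iff₀ (by positivity), ← hPA] at h8
      refine h8.trans (le_of_eq ?_)
      field_simp
    calc (Bad1.card : ℝ) ≤ ((∑ j ∈ range (J + 1), (box.filter (fun a => δ * x < T j a)).card : ℕ) : ℝ) := by
          exact_mod_cast card_biUnion_le
      _ ≤ ∑ _j ∈ range (J + 1), ε1 / δ * PA := by
          push_cast
          exact sum_le_sum h5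
      _ = ((J : ℝ) + 1) * (ε1 / δ * PA) := by
          rw [sum_const, card_range, nsmul_eq_mul]; push_cast; ring
      _ ≤ (4 * (V / δ)) * (ε1 / δ * PA) := mul_le_mul_of_nonneg_right hJ2 (by positivity)
      _ = ε / 4 * PA := by
          rw [hε1d]; field_simp; ring
  have hc2 : (Bad2.card : ℝ) ≤ ε / 4 * PA := by
    refine (small_coord A η hη0.le).trans ?_
    apply mul_le_mul_of_nonneg_right _ hPA0
    rw [hη]
    have : (k : ℝ) * (ε / (4 * (k + 1))) = ε / 4 * (k / (k + 1)) := by field_simp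
    rw [this]
    have h5 : (k : ℝ) / (k + 1) ≤ 1 := by
      rw [div_le_one (by positivity)]; linarith
    have : 0 < ε / 4 := by positivity
    nlinarith
  calc _ ≤ ((Bad1 ∪ Bad2).card : ℝ) := by exact_mod_cast card_le_card hsub
    _ ≤ (Bad1.card : ℝ) + Bad2.card := by exact_mod_cast card_union_le _ _
    _ ≤ ε * PA := by
        have : 0 ≤ ε * PA := by positivity
        linarith

end Pool.Agent.U746.AS
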