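import Pool.Agent.U746.AS.Gam

/-! The second moment of the difference of two sieve models, over the shifts, with arbitrary weights. -/

set_option autoImplicit false

namespace Pool.Agent.U746.AS
open Finset Polynomial
open Pool.Agent.H373R2.T7

lemma prod_diff {ι : Type*} (T : Finset ι) (s h : ι → ℝ) (M δ : ℝ) (hM : 1 ≤ M) (hδ : 0 ≤ δ) (hδ1 : δ ≤ 1)
    (h1 : ∀ i ∈ T, |s i - h i| ≤ δ) (h2 : ∀ i ∈ T, 0 ≤ h i ∧ h i ≤ M) :
    |∏ i ∈ T, s i - ∏ i ∈ T, h i| ≤ T.card * (M + 1) ^ T.card * δ := by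
  classical
  induction T using Finset.induction_on with
  | empty => simp
  | insert a T ha ih =>
    have ih' := ih (fun i hi => h1 i (mem_insert_of_mem hi)) (fun i hi => h2 i (mem_insert_of_mem hi))
    have ha1 := h1 a (mem_insert_self _ _)
    have ha2 := h2 a (mem_insert_self _ _)
    rw [prod_insert ha, prod_insert ha, card_insert_of_notMem ha]
    have e : s a * ∏ i ∈ T, s i - h a * ∏ i ∈ T, h i =
        s a * (∏ i ∈ T, s i - ∏ i ∈ T, h i) + (s a - h a) * ∏ i ∈ T, h i := by ring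
    rw [e]
    have h3 : |s a| ≤ M + 1 := by
      have : |s a| ≤ |s a - h a| + |h a| := by
        have := abs_add_le (s a - h a) (h a)
        simpa using this
      rw [abs_of_nonneg ha2.1] at this
      linarith [ha2.2]
    have h4 : |∏ i ∈ T, h i| ≤ (M + 1) ^ T.card := by
      rw [abs_prod, ← prod_const]
      apply prod_le_prod (fun _ _ => abs_nonneg _)
      intro i hi
      have := h2 i (mem_insert_of_mem hi)
      rw [abs_of_nonneg this.1]
      linarith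
    have hM1 : (1 : ℝ) ≤ M + 1 := by linarith
    have hMp : (0 : ℝ) < (M + 1) ^ T.card := by positivity
    calc |s a * (∏ i ∈ T, s i - ∏ i ∈ T, h i) + (s a - h a) * ∏ i ∈ T, h i|
        ≤ |s a| * |∏ i ∈ T, s i - ∏ i ∈ T, h i| + |s a - h a| * |∏ i ∈ T, h i| := by
          refine (abs_add_le _ _).trans ?_
          rw [abs_mul, abs_mul]
      _ ≤ (M + 1) * (T.card * (M + 1) ^ T.card * δ) + δ * (M + 1) ^ T.card := by
          apply add_le_add
          · exact mul_le_mul h3 ih' (abs_nonneg _) (by linarith)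
          · exact mul_le_mul ha1 h4 (abs_nonneg _) hδ
      _ ≤ (M + 1) * (T.card * (M + 1) ^ T.card * δ) + (M + 1) * (δ * (M + 1) ^ T.card) := by
          have : 0 ≤ δ * (M + 1) ^ T.card := by positivity
          nlinarith
      _ = _ := by
          push_cast
          ring

lemma hh_symm (z : ℕ) (u v : ℤ) : hh z u v = hh z v u := by
  unfold hh nu
  congr 1
  apply prod_congr rfl
  intro p _
  have : (p : ℤ) ∣ u - v ↔ (p : ℤ) ∣ v - u := by
    rw [← dvd_neg, neg_sub]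
  simp only [this]

/-- Mertens -/
lemma Vinv : ∃ C : ℝ, 0 < C ∧ ∀ w : ℕ, 3 ≤ w → (Vz w)⁻¹ ≤ C * Real.log w ^ 2 := by
  obtain ⟨C, hC⟩ := Pool.Agent.Helper256.KM.mertens_inv
  refine ⟨Real.exp (2 * C), Real.exp_pos _, fun z h3 => ?_⟩
  have h4 := hC z h3
  have h5 : (Vz z)⁻¹ ≤ Real.exp (2 * ∑ p ∈ pz z, 1 / (p : ℝ)) := by
    unfold Vz
    rw [← prod_inv_distrib, mul_sum, Real.exp_sum]
    apply prod_le_prod
    · intro p hp
      exact (inv_pos.2 (one_sub_pos (mem_pz.1 hp).2)).le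
    · intro p hp
      have hp2 : (2 : ℝ) ≤ p := by exact_mod_cast (mem_pz.1 hp).2.two_le
      have h6 : (1 - 1 / (p : ℝ))⁻¹ ≤ 2 * (1 / p) + 1 := by
        rw [inv_le_iff_one_le_mul₀ (by rw [sub_pos, div_lt_one (by linarith)]; linarith)]
        have h7 : 0 < 1 / (p : ℝ) := by positivity
        have h8 : 1 / (p : ℝ) ≤ 1 / 2 := one_div_le_one_div_of_le (by norm_num) hp2
        nlinarith
      exact h6.trans (Real.add_one_le_exp _)
  have hz3 : (3 : ℝ) ≤ z := by exact_mod_cast h3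
  have hlz : 1 ≤ Real.log z := by
    rw [← Real.log_exp 1]
    apply Real.log_le_log (Real.exp_pos _)
    have := Real.exp_one_lt_d9
    linarith
  have h6 : ∑ p ∈ pz z, 1 / (p : ℝ) ≤ Real.log (Real.log z) + C := by
    have := (abs_le.1 h4).2
    unfold pz
    linarith
  refine h5.trans ?_
  calc Real.exp (2 * ∑ p ∈ pz z, 1 / (p : ℝ)) ≤ Real.exp (2 * C + 2 * Real.log (Real.log z)) := by
        apply Real.exp_le_exp.2
        linarith
    _ = Real.exp (2 * C) * Real.log z ^ 2 := by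
        rw [Real.exp_add]
        congr 1
        have : 2 * Real.log (Real.log z) = Real.log (Real.log z) + Real.log (Real.log z) := by ring
        rw [this, Real.exp_add, Real.exp_log (by linarith)]
        ring

/-- the choice of `w` -/
lemma w_choice (k K : ℕ) (ε : ℝ) (hε : 0 < ε) : ∃ w0 : ℕ, 3 ≤ w0 ∧ ∀ w : ℕ, w0 ≤ w →
    ((Vz w)⁻¹ ^ 2) ^ k * (Real.exp (K / w) - 1) ≤ ε := by
  obtain ⟨C, hC0, hC⟩ := Vinv
  obtain ⟨x1, hx1⟩ := ev_log' (4 * k) (C ^ (2 * k) * (2 * K) / ε)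
  refine ⟨max (max 3 K) x1, (le_max_left _ _).trans (le_max_left _ _), fun w hw => ?_⟩
  have h3 : 3 ≤ w := ((le_max_left _ _).trans (le_max_left _ _)).trans hw
  have hK : K ≤ w := ((le_max_right _ _).trans (le_max_left _ _)).trans hw
  have h4 := hx1 w ((le_max_right _ _).trans hw)
  have hw0 : (0 : ℝ) < w := by exact_mod_cast (by omega : 0 < w)
  have hw1 : (1 : ℝ) ≤ w := by exact_mod_cast (by omega : 1 ≤ w)
  have hV := hC w h3
  have hVp := Vz_pos w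
  have h5 : Real.exp (K / w) - 1 ≤ 2 * K / w := by
    have h6 : |(K : ℝ) / w| ≤ 1 := by
      rw [abs_of_nonneg (by positivity), div_le_one hw0]
      exact_mod_cast hK
    have h7 := Real.abs_exp_sub_one_le h6
    rw [abs_of_nonneg (show (0 : ℝ) ≤ (K : ℝ) / w by positivity)] at h7
    have h8 := (abs_le.1 h7).2
    refine h8.trans (le_of_eq ?_)
    ring
  have h6 : ((Vz w)⁻¹ ^ 2) ^ k ≤ C ^ (2 * k) * Real.log w ^ (4 * k) := by
    rw [← pow_mul]
    refine (pow_le_pow_left₀ (by positivity) hV _).trans (le_of_eq ?_)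
    rw [mul_pow, ← pow_mul]
    congr 2
    ring
  have hl : 0 ≤ Real.log w := Real.log_nonneg hw1
  calc ((Vz w)⁻¹ ^ 2) ^ k * (Real.exp (K / w) - 1) ≤ (C ^ (2 * k) * Real.log w ^ (4 * k)) * (2 * K / w) := by
        apply mul_le_mul h6 h5 _ (by positivity)
        have := Real.add_one_le_exp ((K : ℝ) / w)
        have h9 : (0 : ℝ) ≤ (K : ℝ) / w := by positivity
        linarith
    _ = (C ^ (2 * k) * (2 * K) / ε * Real.log w ^ (4 * k)) * ε / w := by
        field_simp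
    _ ≤ √w * ε / w := by
        gcongr
    _ ≤ ε := by
        rw [div_le_iff₀ hw0]
        have h7 : √(w : ℝ) ≤ w := by
          rw [Real.sqrt_le_left (by positivity)]; nlinarith
        nlinarith

/-- the values of the model -/
noncomputable def PL {k : ℕ} (F : Fin k → ℤ[X]) (z : ℕ) (a : Fin k → ℕ) (n : ℕ) : ℝ :=
  ∏ i, LL z ((a i : ℤ) + (F i).eval (n : ℤ))

lemma corr_prod {k : ℕ} (F : Fin k → ℤ[X]) (A : Fin k → ℕ) (y z n m : ℕ) :
    ∑ a ∈ Fintype.piFinset (fun i => Icc 1 (A i)), PL F y a n * PL F z a m =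
      ∏ i, ∑ a ∈ Icc 1 (A i), LL y ((a : ℤ) + (F i).eval (n : ℤ)) * LL z ((a : ℤ) + (F i).eval (m : ℤ)) := by
  rw [prod_univ_sum]
  apply sum_congr rfl
  intro a _
  unfold PL
  rw [prod_mul_distrib]

open Classical in
theorem var {k : ℕ} (F : Fin k → ℤ[X]) (hd : ∀ i, 1 ≤ (F i).natDegree) (hl : ∀ i, 0 < (F i).leadingCoeff)
    (B : ℕ) (hB : 1 ≤ B) (ε : ℝ) (hε : 0 < ε) (w : ℕ) (hw3 : 3 ≤ w)
    (hwl : ∀ p : ℕ, w < p → ∀ i, ¬ (p : ℤ) ∣ (F i).leadingCoeff)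
    (u1 : ((Vz w)⁻¹ ^ 2) ^ k * (Real.exp (((3 ^ k * Dg F : ℕ) : ℝ) / w) - 1) ≤ ε / 4) (E : ℕ) : ∃ x0 : ℕ, ∀ x : ℕ, x0 ≤ x →
    ∀ A : Fin k → ℕ, (∀ i, A i ≤ B * x ^ (F i).natDegree ∧ x ^ (F i).natDegree ≤ B * A i) →
    ∀ z : ℕ, w ≤ z → (z : ℝ) ≤ Real.log x ^ E → ∀ G : ℕ → ℝ, (∀ n, 0 ≤ G n ∧ G n ≤ 1) →
    ∑ a ∈ Fintype.piFinset (fun i => Icc 1 (A i)), (∑ n ∈ Icc 1 x, G n * (PL F z a n - PL F w a n)) ^ 2 ≤
      ε * (x : ℝ) ^ 2 * ∏ i, (A i : ℝ) := by
  set K : ℕ := 3 ^ k * Dg F with hK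
  set D : ℕ := univ.sup (fun i => (F i).natDegree) with hD
  set U : ℕ := 2 * k + 2 with hU
  obtain ⟨N1, h1⟩ := corr (E + 1) U
  obtain ⟨N2, h2⟩ := size_log D B hB
  obtain ⟨N3, h3⟩ := ev_L' (2 * 2 ^ E + 2 * (16 * k * 2 ^ (3 * k + 2) / ε) + 4)
  obtain ⟨N4, h4⟩ := Vz_inv_small E
  obtain ⟨N5, h5⟩ := ev_log' (2 * k + K) (4 / ε)
  refine ⟨max (max (B * N1) N2) (max (max N3 N4) (max N5 3)), fun x hx A hA z hwz hz G hG => ?_⟩
  have b1 : B * N1 ≤ x := le_trans (le_trans (le_max_left _ _) (le_max_left _ _)) hx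
  have b2 : N2 ≤ x := le_trans (le_trans (le_max_right _ _) (le_max_left _ _)) hx
  have b3 : N3 ≤ x := le_trans (le_trans (le_trans (le_max_left _ _) (le_max_left _ _)) (le_max_right _ _)) hx
  have b4 : N4 ≤ x := le_trans (le_trans (le_trans (le_max_right _ _) (le_max_left _ _)) (le_max_right _ _)) hx
  have b5 : N5 ≤ x := le_trans (le_trans (le_trans (le_max_left _ _) (le_max_right _ _)) (le_max_right _ _)) hx
  have b6 : 3 ≤ x := le_trans (le_trans (le_trans (le_max_right _ _) (le_max_right _ _)) (le_max_right _ _)) hx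
  have hL := h3 x b3
  have hVz := h4 x b4 z (by omega) hz
  have hVw := h4 x b4 w (by omega) (le_trans (by exact_mod_cast hwz) hz)
  have h5' := h5 x b5
  set L := Real.log x with hLd
  have hx0 : (0 : ℝ) < x := by exact_mod_cast (by omega : 0 < x)
  have q1 : (0 : ℝ) < 2 ^ E := by positivity
  have q2 : (0 : ℝ) ≤ 16 * k * 2 ^ (3 * k + 2) / ε := by positivity
  have hL4 : 4 ≤ L := by linarith
  have hL0 : 0 < L := by linarith
  have hL1 : 1 ≤ L := by linarith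
  have hVz0 := Vz_pos z
  have hVw0 := Vz_pos w
  -- sizes
  have hsz : ∀ i, L / 2 ≤ Real.log (A i) ∧ N1 ≤ A i ∧ 0 < A i := by
    intro i
    have hdi : (F i).natDegree ≤ D := le_sup (f := fun i => (F i).natDegree) (mem_univ i)
    obtain ⟨s1, s2, s3⟩ := h2 x b2 (F i).natDegree (A i) (hd i) hdi (hA i).1 (hA i).2
    have s4 : N1 ≤ A i := by
      have : B * N1 ≤ B * A i := b1.trans s3
      exact Nat.le_of_mul_le_mul_left this (by omega)
    refine ⟨s1, s4, ?_⟩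
    rcases Nat.eq_zero_or_pos (A i) with h | h
    · rw [h, mul_zero] at s3; omega
    · exact h
  set δ : ℝ := (2 / L) ^ U with hδ
  have hδ0 : 0 ≤ δ := by positivity
  have hδ1 : δ ≤ 1 := by
    apply pow_le_one₀ (by positivity)
    rw [div_le_one hL0]; linarith
  have hcorr : ∀ i, ∀ y₁ y₂ : ℕ, 1 ≤ y₂ → y₂ ≤ y₁ → (y₁ : ℝ) ≤ L ^ E → ∀ u v : ℤ,
      |(∑ a ∈ Icc 1 (A i), LL y₁ ((a : ℤ) + u) * LL y₂ ((a : ℤ) + v)) / A i - hh y₂ u v| ≤ δ := by
    intro i y₁ y₂ hy hy12 hyE u v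
    obtain ⟨s1, s2, s3⟩ := hsz i
    have hA0 : (0 : ℝ) < A i := by exact_mod_cast s3
    have hlA : 2 ^ E ≤ Real.log (A i) := by linarith
    have hlA0 : 0 < Real.log (A i) := by linarith
    have hy1 : (y₁ : ℝ) ≤ Real.log (A i) ^ (E + 1) := by
      calc (y₁ : ℝ) ≤ L ^ E := hyE
        _ ≤ (2 * Real.log (A i)) ^ E := pow_le_pow_left₀ hL0.le (by linarith) _
        _ = 2 ^ E * Real.log (A i) ^ E := mul_pow _ _ _
        _ ≤ Real.log (A i) * Real.log (A i) ^ E := mul_le_mul_of_nonneg_right hlA (by positivity)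
        _ = _ := by ring
    have k1 := h1 (A i) s2 y₂ y₁ hy hy12 hy1 u v
    have e1 : (∑ a ∈ Icc 1 (A i), LL y₁ ((a : ℤ) + u) * LL y₂ ((a : ℤ) + v)) / A i - hh y₂ u v =
        (∑ a ∈ Icc 1 (A i), LL y₁ ((a : ℤ) + u) * LL y₂ ((a : ℤ) + v) - A i * hh y₂ u v) / A i := by
      field_simp
    rw [e1, abs_div, abs_of_pos hA0, div_le_iff₀ hA0]
    refine k1.trans ?_
    have h6 : 1 / Real.log (A i) ^ U ≤ δ := by
      rw [hδ, div_pow, div_le_div_iff₀ (by positivity) (by positivity), one_mul]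
      calc L ^ U ≤ (2 * Real.log (A i)) ^ U := pow_le_pow_left₀ hL0.le (by linarith) _
        _ = _ := mul_pow _ _ _
    calc (A i : ℝ) / Real.log (A i) ^ U = 1 / Real.log (A i) ^ U * A i := by ring
      _ ≤ δ * A i := mul_le_mul_of_nonneg_right h6 hA0.le
  set PA : ℝ := ∏ i, (A i : ℝ) with hPA
  have hPA0 : 0 < PA := prod_pos fun i _ => by exact_mod_cast (hsz i).2.2
  set e : ℝ := k * (L ^ 2 + 1) ^ k * δ with he
  have hzE : (z : ℝ) ≤ L ^ E := hz
  have hwE : (w : ℝ) ≤ L ^ E := le_trans (by exact_mod_cast hwz) hz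
  have hR : ∀ n m : ℕ, ∀ y₁ y₂ : ℕ, 1 ≤ y₂ → y₂ ≤ y₁ → (y₁ : ℝ) ≤ L ^ E → (Vz y₂)⁻¹ ≤ L →
      |(∑ a ∈ Fintype.piFinset (fun i => Icc 1 (A i)), PL F y₁ a n * PL F y₂ a m) / PA -
        ∏ i, hh y₂ ((F i).eval (n : ℤ)) ((F i).eval (m : ℤ))| ≤ e := by
    intro n m y₁ y₂ hy hy12 hyE hyV
    rw [corr_prod, hPA, ← prod_div_distrib]
    have := prod_diff (univ : Finset (Fin k)) (fun i => (∑ a ∈ Icc 1 (A i), LL y₁ ((a : ℤ) + (F i).eval (n : ℤ)) *
      LL y₂ ((a : ℤ) + (F i).eval (m : ℤ))) / A i) (fun i => hh y₂ ((F i).eval (n : ℤ)) ((F i).eval (m : ℤ)))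
      (L ^ 2) δ (one_le_pow₀ hL1) hδ0 hδ1 (fun i _ => hcorr i y₁ y₂ hy hy12 hyE _ _)
      (fun i _ => ⟨hh_nonneg _ _ _, (hh_le _ _ _).trans (pow_le_pow_left₀ (inv_pos.2 (Vz_pos _)).le hyV 2)⟩)
    rw [card_univ, Fintype.card_fin] at this
    exact this
  -- the inner sums
  have hin : ∀ n m : ℕ, (∑ a ∈ Fintype.piFinset (fun i => Icc 1 (A i)), (PL F z a n - PL F w a n) * (PL F z a m - PL F w a m)) / PA ≤
      ((Vz w)⁻¹ ^ 2) ^ k * (∏ p ∈ PP w z, (1 + (if ∃ i, (p : ℤ) ∣ (F i).eval (n : ℤ) - (F i).eval (m : ℤ) then 3 ^ k / (p : ℝ) else 0)) - 1) + 4 * e := by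
    intro n m
    have r1 := (abs_le.1 (hR n m z z (by omega) le_rfl hzE hVz)).2
    have r2 := (abs_le.1 (hR n m z w (by omega) hwz hzE hVw)).1
    have r3 := (abs_le.1 (hR m n z w (by omega) hwz hzE hVw)).1
    have r4 := (abs_le.1 (hR n m w w (by omega) le_rfl hwE hVw)).2
    have e3 : ∏ i, hh w ((F i).eval (m : ℤ)) ((F i).eval (n : ℤ)) = ∏ i, hh w ((F i).eval (n : ℤ)) ((F i).eval (m : ℤ)) :=
      prod_congr rfl fun i _ => hh_symm _ _ _
    rw [e3] at r3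
    have e4 : ∑ a ∈ Fintype.piFinset (fun i => Icc 1 (A i)), (PL F z a n - PL F w a n) * (PL F z a m - PL F w a m) =
        ∑ a ∈ Fintype.piFinset (fun i => Icc 1 (A i)), PL F z a n * PL F z a m -
        ∑ a ∈ Fintype.piFinset (fun i => Icc 1 (A i)), PL F z a n * PL F w a m -
        ∑ a ∈ Fintype.piFinset (fun i => Icc 1 (A i)), PL F z a m * PL F w a n +
        ∑ a ∈ Fintype.piFinset (fun i => Icc 1 (A i)), PL F w a n * PL F w a m := by
      rw [← sum_sub_distrib, ← sum_sub_distrib, ← sum_add_distrib]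
      apply sum_congr rfl
      intro a _
      ring
    rw [e4, add_div, sub_div, sub_div]
    have h6 := prod_hh hwz (fun i => (F i).eval (n : ℤ)) (fun i => (F i).eval (m : ℤ))
    set Γ := ∏ p ∈ PP w z, (1 + (if ∃ i, (p : ℤ) ∣ (F i).eval (n : ℤ) - (F i).eval (m : ℤ) then 3 ^ k / (p : ℝ) else 0)) with hΓ
    have hΓ1 : 1 ≤ Γ := by
      rw [hΓ]
      calc (1 : ℝ) = ∏ _p ∈ PP w z, (1 : ℝ) := by rw [prod_const_one]
        _ ≤ _ := by
          apply prod_le_prod (fun _ _ => zero_le_one)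
          intro p _
          have : (0 : ℝ) ≤ (if ∃ i, (p : ℤ) ∣ (F i).eval (n : ℤ) - (F i).eval (m : ℤ) then 3 ^ k / (p : ℝ) else 0) := by
            split_ifs <;> positivity
          linarith
    have h7 : ∏ i, hh w ((F i).eval (n : ℤ)) ((F i).eval (m : ℤ)) ≤ ((Vz w)⁻¹ ^ 2) ^ k := by
      calc ∏ i, hh w ((F i).eval (n : ℤ)) ((F i).eval (m : ℤ)) ≤ ∏ _i : Fin k, ((Vz w)⁻¹ ^ 2) :=
            prod_le_prod (fun i _ => hh_nonneg _ _ _) (fun i _ => hh_le _ _ _)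
        _ = _ := by rw [prod_const, card_univ, Fintype.card_fin]
    have h8 : (∏ i, hh w ((F i).eval (n : ℤ)) ((F i).eval (m : ℤ))) * (Γ - 1) ≤ ((Vz w)⁻¹ ^ 2) ^ k * (Γ - 1) :=
      mul_le_mul_of_nonneg_right h7 (by linarith)
    linarith
  -- expansion of the square
  have hexp : ∑ a ∈ Fintype.piFinset (fun i => Icc 1 (A i)), (∑ n ∈ Icc 1 x, G n * (PL F z a n - PL F w a n)) ^ 2 =
      PA * ∑ m ∈ Icc 1 x, ∑ n ∈ Icc 1 x, G n * G m *
        ((∑ a ∈ Fintype.piFinset (fun i => Icc 1 (A i)), (PL F z a n - PL F w a n) * (PL F z a m - PL F w a m)) / PA) := by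
    have e1 : ∀ a ∈ Fintype.piFinset (fun i => Icc 1 (A i)), (∑ n ∈ Icc 1 x, G n * (PL F z a n - PL F w a n)) ^ 2 =
        ∑ m ∈ Icc 1 x, ∑ n ∈ Icc 1 x, G n * G m * ((PL F z a n - PL F w a n) * (PL F z a m - PL F w a m)) := by
      intro a _
      rw [pow_two, sum_mul_sum, sum_comm]
      apply sum_congr rfl
      intro m _
      apply sum_congr rfl
      intro n _
      ring
    rw [sum_congr rfl e1, sum_comm, mul_sum]
    apply sum_congr rfl
    intro m _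
    rw [sum_comm, mul_sum]
    apply sum_congr rfl
    intro n _
    rw [← mul_sum]
    field_simp
  rw [hexp]
  have he0 : 0 ≤ e := by positivity
  have hVk : 0 ≤ ((Vz w)⁻¹ ^ 2) ^ k := by positivity
  have hstep : ∀ m ∈ Icc 1 x, ∑ n ∈ Icc 1 x, G n * G m *
        ((∑ a ∈ Fintype.piFinset (fun i => Icc 1 (A i)), (PL F z a n - PL F w a n) * (PL F z a m - PL F w a m)) / PA) ≤
        ((Vz w)⁻¹ ^ 2) ^ k * (x * (Real.exp (K / w) - 1) + L ^ K) + x * (4 * e) := by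
    intro m _
    have t1 : ∀ n ∈ Icc 1 x, G n * G m *
        ((∑ a ∈ Fintype.piFinset (fun i => Icc 1 (A i)), (PL F z a n - PL F w a n) * (PL F z a m - PL F w a m)) / PA) ≤
        ((Vz w)⁻¹ ^ 2) ^ k * (∏ p ∈ PP w z, (1 + (if ∃ i, (p : ℤ) ∣ (F i).eval (n : ℤ) - (F i).eval (m : ℤ) then 3 ^ k / (p : ℝ) else 0)) - 1) + 4 * e := by
      intro n _
      have g1 := hG n
      have g2 := hG m
      have hY : 0 ≤ ((Vz w)⁻¹ ^ 2) ^ k * (∏ p ∈ PP w z, (1 + (if ∃ i, (p : ℤ) ∣ (F i).eval (n : ℤ) - (F i).eval (m : ℤ) then 3 ^ k / (p : ℝ) else 0)) - 1) + 4 * e := by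
        apply add_nonneg _ (by positivity)
        apply mul_nonneg hVk
        rw [sub_nonneg]
        calc (1 : ℝ) = ∏ _p ∈ PP w z, (1 : ℝ) := by rw [prod_const_one]
          _ ≤ _ := by
            apply prod_le_prod (fun _ _ => zero_le_one)
            intro p _
            have : (0 : ℝ) ≤ (if ∃ i, (p : ℤ) ∣ (F i).eval (n : ℤ) - (F i).eval (m : ℤ) then 3 ^ k / (p : ℝ) else 0) := by
              split_ifs <;> positivity
            linarith
      have g3 : 0 ≤ G n * G m := mul_nonneg g1.1 g2.1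
      have g4 : G n * G m ≤ 1 := mul_le_one₀ g1.2 g2.1 g2.2
      exact (mul_le_mul_of_nonneg_left (hin n m) g3).trans (mul_le_of_le_one_left hY g4)
    refine (sum_le_sum t1).trans ?_
    rw [sum_add_distrib, ← mul_sum, sum_sub_distrib]
    have t2 := gam_sum F hd w z x hwl (fun i => (F i).eval (m : ℤ)) (3 ^ k) (by positivity)
    have eK : (3 : ℝ) ^ k * Dg F = (K : ℝ) := by rw [hK]; push_cast; ring
    rw [eK] at t2
    have t3 := prod_sq_le w z (by omega) K (by positivity)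
    have t4 := (prod_one_le w z K).trans (pow_le_pow_left₀ (inv_pos.2 hVz0).le hVz K)
    have t5 : (∑ _n ∈ Icc 1 x, (1 : ℝ)) = x := by simp
    have t6 : (∑ _n ∈ Icc 1 x, 4 * e) = x * (4 * e) := by
      rw [sum_const, Nat.card_Icc, nsmul_eq_mul]; simp
    rw [t5, t6]
    have t7 : (x : ℝ) * ∏ p ∈ PP w z, (1 + K / (p : ℝ) ^ 2) ≤ x * Real.exp (K / w) :=
      mul_le_mul_of_nonneg_left t3 hx0.le
    have t8 : ∑ n ∈ Icc 1 x, ∏ p ∈ PP w z, (1 + (if ∃ i, (p : ℤ) ∣ (F i).eval (n : ℤ) - (F i).eval (m : ℤ) then 3 ^ k / (p : ℝ) else 0)) - x ≤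
        x * (Real.exp (K / w) - 1) + L ^ K := by linarith
    have := mul_le_mul_of_nonneg_left t8 hVk
    linarith
  have hsum := sum_le_sum hstep
  rw [sum_const, Nat.card_Icc, nsmul_eq_mul, Nat.add_sub_cancel] at hsum
  have u2 : ((Vz w)⁻¹ ^ 2) ^ k * L ^ K ≤ ε / 4 * x := by
    have u3 : ((Vz w)⁻¹ ^ 2) ^ k ≤ L ^ (2 * k) := by
      rw [← pow_mul]
      exact pow_le_pow_left₀ (inv_pos.2 hVw0).le hVw _
    have u4 : √(x : ℝ) ≤ x := by
      have : (1 : ℝ) ≤ x := by exact_mod_cast (by omega : 1 ≤ x)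
      rw [Real.sqrt_le_left (by positivity)]; nlinarith
    calc ((Vz w)⁻¹ ^ 2) ^ k * L ^ K ≤ L ^ (2 * k) * L ^ K := mul_le_mul_of_nonneg_right u3 (by positivity)
      _ = ε / 4 * (4 / ε * L ^ (2 * k + K)) := by rw [pow_add]; field_simp
      _ ≤ ε / 4 * x := mul_le_mul_of_nonneg_left (h5'.trans u4) (by positivity)
  have u5 : 4 * e ≤ ε / 4 := by
    have v1 : (L ^ 2 + 1) ^ k ≤ 2 ^ k * L ^ (2 * k) := by
      calc (L ^ 2 + 1) ^ k ≤ (2 * L ^ 2) ^ k := by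
            apply pow_le_pow_left₀ (by positivity)
            nlinarith
        _ = _ := by rw [mul_pow, ← pow_mul]
    have v2 : e ≤ k * (2 ^ k * L ^ (2 * k)) * δ := by
      rw [he]
      apply mul_le_mul_of_nonneg_right _ hδ0
      exact mul_le_mul_of_nonneg_left v1 (Nat.cast_nonneg _)
    have v3 : (k : ℝ) * (2 ^ k * L ^ (2 * k)) * δ = k * 2 ^ (3 * k + 2) / L ^ 2 := by
      rw [hδ, hU, div_pow]
      have : L ^ (2 * k + 2) = L ^ (2 * k) * L ^ 2 := pow_add _ _ _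
      rw [this]
      have h2' : (2 : ℝ) ^ (3 * k + 2) = 2 ^ k * 2 ^ (2 * k + 2) := by
        rw [← pow_add]; congr 1; ring
      rw [h2']
      field_simp
    rw [v3] at v2
    have v4 : (16 * k * 2 ^ (3 * k + 2) / ε) ≤ L := by linarith
    have v5 : (k : ℝ) * 2 ^ (3 * k + 2) / L ^ 2 ≤ ε / 16 := by
      rw [div_le_iff₀ (by positivity)] at v4 ⊢
      have : L ≤ L ^ 2 := by nlinarith
      have h6 : ε * L ≤ ε * L ^ 2 := mul_le_mul_of_nonneg_left this hε.le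
      nlinarith
    linarith
  have hfin : ∑ m ∈ Icc 1 x, ∑ n ∈ Icc 1 x, G n * G m *
        ((∑ a ∈ Fintype.piFinset (fun i => Icc 1 (A i)), (PL F z a n - PL F w a n) * (PL F z a m - PL F w a m)) / PA) ≤
      ε * (x : ℝ) ^ 2 := by
    refine hsum.trans ?_
    have u6 : ((Vz w)⁻¹ ^ 2) ^ k * (x * (Real.exp (K / w) - 1) + L ^ K) + x * (4 * e) ≤ ε * x := by
      have u7 : ((Vz w)⁻¹ ^ 2) ^ k * (x * (Real.exp (K / w) - 1)) ≤ ε / 4 * x := by
        calc ((Vz w)⁻¹ ^ 2) ^ k * (x * (Real.exp (K / w) - 1)) = x * (((Vz w)⁻¹ ^ 2) ^ k * (Real.exp (K / w) - 1)) := by ring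
          _ ≤ x * (ε / 4) := mul_le_mul_of_nonneg_left u1 hx0.le
          _ = _ := by ring
      have u8 : (x : ℝ) * (4 * e) ≤ x * (ε / 4) := mul_le_mul_of_nonneg_left u5 hx0.le
      have u9 : 0 ≤ ε * x := by positivity
      nlinarith
    calc (x : ℝ) * (((Vz w)⁻¹ ^ 2) ^ k * (x * (Real.exp (K / w) - 1) + L ^ K) + x * (4 * e)) ≤ x * (ε * x) :=
          mul_le_mul_of_nonneg_left u6 hx0.le
      _ = _ := by ring
  calc PA * _ ≤ PA * (ε * (x : ℝ) ^ 2) := mul_le_mul_of_nonneg_left hfin hPA0.le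
    _ = _ := by ring

end Pool.Agent.U746.AS
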